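import Pool.Agent.U161.AR.Fin
import Pool.Agent.TH53.UG6
import Pool.Agent.H904L2.Final

/-!
# Polycyclic groups of derived length three
-/

set_option autoImplicit false

namespace Pool.Agent.U161.AR

open Pool.Agent.N600.G3 Subgroup Polynomial
open scoped TensorProduct commutatorElement Pointwise ComplexConjugate
open Pool.Agent.TH53.UG (act)
open Pool.Agent.W963.GE (MM MM_ge MM_gt roots_nodup)

universe u

/-! ### numbers -/

lemma root_iff {x : ℂ} (hx : IsIntegral ℤ x) {w : ℂ}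
    (hw : w ∈ ((minpoly ℤ x).map (Int.castRingHom ℂ)).roots) : aeval w (minpoly ℤ x) = 0 := by
  have := (mem_roots'.1 hw).2
  rw [IsRoot.def, eval_map] at this
  exact this

lemma card_roots {x : ℂ} (hx : IsIntegral ℤ x) :
    Multiset.card ((minpoly ℤ x).map (Int.castRingHom ℂ)).roots = (minpoly ℤ x).natDegree := by
  have h1 := (IsAlgClosed.splits ((minpoly ℤ x).map (Int.castRingHom ℂ))).natDegree_eq_card_roots
  rw [← h1, (minpoly.monic hx).natDegree_map]

/-- eigenvalues with rational complex conjugation -/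
lemma big_cm {x : ℂ} (hx : IsIntegral ℤ x) (h0 : x ≠ 0) (hroot : ∀ m > 0, x ^ m ≠ 1)
    {h : ℚ[X]} (hh : ∀ z : ℂ, aeval z (minpoly ℤ x) = 0 → conj z = aeval z h) :
    ∃ w : ℂ, aeval w (minpoly ℤ x) = 0 ∧ Real.exp (21 / 88) ≤ ‖w‖ := by
  by_contra hcon
  push Not at hcon
  have h1 := TH53.UG.cm_bound hx h0 hroot hh
  have hdeg : 0 < (minpoly ℤ x).natDegree := minpoly.natDegree_pos hx
  have h2 : MM x ≤ (Real.exp (21 / 88)) ^ (minpoly ℤ x).natDegree := by
    unfold MM
    rw [mahlerMeasure_eq_leadingCoeff_mul_prod_roots, ((minpoly.monic hx).map _).leadingCoeff,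
      norm_one, one_mul, ← card_roots hx]
    have h3 : ∀ s : Multiset ℂ, (∀ w ∈ s, ‖w‖ ≤ Real.exp (21 / 88)) →
        (s.map fun a => max 1 ‖a‖).prod ≤ (Real.exp (21 / 88)) ^ (Multiset.card s) ∧
        0 ≤ (s.map fun a => max 1 ‖a‖).prod := by
      intro s
      induction s using Multiset.induction_on with
      | empty => intro _; simp
      | cons a s ih =>
        intro hs
        obtain ⟨i1, i2⟩ := ih fun w hw => hs w (Multiset.mem_cons_of_mem hw)
        rw [Multiset.map_cons, Multiset.prod_cons, Multiset.card_cons, pow_succ']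
        have h4 : max 1 ‖a‖ ≤ Real.exp (21 / 88) :=
          max_le (Real.one_le_exp (by norm_num)) (hs a (Multiset.mem_cons_self a s))
        exact ⟨mul_le_mul h4 i1 i2 (Real.exp_pos _).le, by positivity⟩
    exact (h3 _ fun w hw => (hcon w (root_iff hx hw)).le).1
  have h5 : Real.exp (21 / 88) ^ 8 < 27 / 4 := by
    rw [← Real.exp_nat_mul]
    have h6 : Real.exp ((8 : ℕ) * (21 / 88)) ^ 11 < (27 / 4 : ℝ) ^ 11 := by
      rw [← Real.exp_nat_mul]
      have e : ((11 : ℕ) : ℝ) * ((8 : ℕ) * (21 / 88)) = ((21 : ℕ) : ℝ) * 1 := by norm_num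
      rw [e, Real.exp_nat_mul]
      calc Real.exp 1 ^ 21 < (2.7182818286 : ℝ) ^ 21 :=
            pow_lt_pow_left₀ Real.exp_one_lt_d9 (Real.exp_pos _).le (by norm_num)
        _ < _ := by norm_num
    exact lt_of_pow_lt_pow_left₀ 11 (by norm_num) h6
  have h6 : MM x ^ 8 < (27 / 4 : ℝ) ^ (minpoly ℤ x).natDegree := by
    calc MM x ^ 8 ≤ ((Real.exp (21 / 88)) ^ (minpoly ℤ x).natDegree) ^ 8 :=
          pow_le_pow_left₀ (zero_le_one.trans (MM_ge x hx)) h2 8
      _ = ((Real.exp (21 / 88)) ^ 8) ^ (minpoly ℤ x).natDegree := by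
          rw [← pow_mul, ← pow_mul, mul_comm]
      _ < _ := pow_lt_pow_left₀ h5 (by positivity) hdeg.ne'
  linarith

/-- eigenvalues of bounded degree -/
lemma big_deg {x : ℂ} (hx : IsIntegral ℤ x) (h0 : x ≠ 0) (hroot : ∀ m > 0, x ^ m ≠ 1)
    {n : ℕ} (hn : 0 < n) (hdeg : (minpoly ℤ x).natDegree ≤ n) :
    ∃ w : ℂ, aeval w (minpoly ℤ x) = 0 ∧ Real.exp (1 / (26 * n)) ≤ ‖w‖ := by
  by_contra hcon
  push Not at hcon
  have hM := MM_gt x hx h0 hroot
  have h1 := H904L2.main (minpoly ℤ x) (minpoly.monic hx) hM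
  have hd0 : 0 < (minpoly ℤ x).natDegree := minpoly.natDegree_pos hx
  have hd0' : (0 : ℝ) < (minpoly ℤ x).natDegree := by exact_mod_cast hd0
  have hn' : (0 : ℝ) < n := by exact_mod_cast hn
  have h2 : (((minpoly ℤ x).map (Int.castRingHom ℂ)).roots.map fun z =>
      (Real.posLog ‖z‖) ^ 2).sum ≤ (minpoly ℤ x).natDegree * (1 / (26 * (n : ℝ))) ^ 2 := by
    rw [← card_roots hx, ← nsmul_eq_mul]
    have h3 := Multiset.sum_le_card_nsmul
      (((minpoly ℤ x).map (Int.castRingHom ℂ)).roots.map fun z => (Real.posLog ‖z‖) ^ 2)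
      ((1 / (26 * (n : ℝ))) ^ 2) (by
        intro y hy
        obtain ⟨w, hw, rfl⟩ := Multiset.mem_map.1 hy
        have h4 := hcon w (root_iff hx hw)
        have h5 : Real.posLog ‖w‖ ≤ 1 / (26 * (n : ℝ)) := by
          rw [Real.posLog]
          apply max_le (by positivity)
          rcases (norm_nonneg w).eq_or_lt with h6 | h6
          · rw [← h6, Real.log_zero]; positivity
          · exact (Real.log_le_iff_le_exp h6).2 h4.le
        exact pow_le_pow_left₀ Real.posLog_nonneg h5 2)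
    rw [Multiset.card_map] at h3
    exact h3
  have h3 := h1.trans h2
  rw [div_le_iff₀ (by positivity)] at h3
  have h4 : ((minpoly ℤ x).natDegree : ℝ) ≤ n := by exact_mod_cast hdeg
  have h5 : ((minpoly ℤ x).natDegree : ℝ) * (1 / (26 * (n : ℝ))) ^ 2 *
      (640 * ((minpoly ℤ x).natDegree : ℝ)) =
      640 / 676 * (((minpoly ℤ x).natDegree : ℝ) / n) ^ 2 := by
    field_simp
    ring
  rw [h5] at h3
  have h6 : ((minpoly ℤ x).natDegree : ℝ) / n ≤ 1 := (div_le_one hn').2 h4
  have h7 : (((minpoly ℤ x).natDegree : ℝ) / n) ^ 2 ≤ 1 :=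
    pow_le_one₀ (by positivity) h6
  linarith

/-- the degree of an eigenvalue is at most the dimension -/
lemma deg_le {B : Type u} [AddCommGroup B] [Module.Finite ℤ B] (g : Module.End ℤ B) {z : ℂ}
    (hz : IsIntegral ℤ z)
    (h : ∀ w : ℂ, aeval w (minpoly ℤ z) = 0 →
      Module.End.HasEigenvalue (LinearMap.baseChange ℂ g : Module.End ℂ (ℂ ⊗[ℤ] B)) w) :
    (minpoly ℤ z).natDegree ≤ Module.finrank ℂ (ℂ ⊗[ℤ] B) := by
  rw [← card_roots hz]
  have h1 : ((minpoly ℤ z).map (Int.castRingHom ℂ)).roots ≤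
      (LinearMap.baseChange ℂ g : Module.End ℂ (ℂ ⊗[ℤ] B)).charpoly.roots := by
    rw [Multiset.le_iff_subset (roots_nodup z hz)]
    intro w hw
    have h2 := h w (root_iff hz hw)
    rw [Module.End.hasEigenvalue_iff_isRoot_charpoly] at h2
    exact (mem_roots (LinearMap.charpoly_monic _).ne_zero).2 h2
  calc _ ≤ _ := Multiset.card_le_card h1
    _ ≤ _ := card_roots' _
    _ = _ := LinearMap.charpoly_natDegree _

/-! ### the dichotomy -/

lemma mem_comm_iff {H : Type u} [Group H] : derivedSeries H 2 = ⁅commutator H, commutator H⁆ := by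
  rw [derivedSeries_succ, derivedSeries_succ, derivedSeries_zero]
  rfl

/-- the derived subgroup of `H / H'''` is virtually nilpotent -/
theorem vn_quot {H : Type u} [Group H] (h : ∀ K : Subgroup (H ⧸ derivedSeries H 3), K.FG)
    (hroots : ∀ t ∈ commutator H, ∀ z : ℂ, EF (derivedSeries H 2) t z → ∃ n > 0, z ^ n = 1) :
    Group.IsVirtuallyNilpotent (commutator (H ⧸ derivedSeries H 3)) := by
  let D := derivedSeries H 3
  let π : H →* H ⧸ D := QuotientGroup.mk' D
  have hπ : Function.Surjective π := QuotientGroup.mk'_surjective D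
  have hbot : derivedSeries (H ⧸ D) 3 = ⊥ := by
    rw [← map_derivedSeries_eq hπ 3, eq_bot_iff]
    rintro _ ⟨x, hx, rfl⟩
    rw [Subgroup.mem_bot]
    exact (QuotientGroup.eq_one_iff x).2 hx
  have habel : ∀ x ∈ commutator (commutator (H ⧸ D)), ∀ y ∈ commutator (commutator (H ⧸ D)),
      x * y = y * x := by
    intro x hx y hy
    have hx' : (x : H ⧸ D) ∈ ⁅commutator (H ⧸ D), commutator (H ⧸ D)⁆ := by
      rw [← map_subtype_commutator]; exact ⟨x, hx, rfl⟩
    have hy' : (y : H ⧸ D) ∈ ⁅commutator (H ⧸ D), commutator (H ⧸ D)⁆ := by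
      rw [← map_subtype_commutator]; exact ⟨y, hy, rfl⟩
    have h1 : ⁅(x : H ⧸ D), (y : H ⧸ D)⁆ ∈ derivedSeries (H ⧸ D) 3 := by
      rw [derived_three]
      exact commutator_mem_commutator hx' hy'
    rw [hbot, Subgroup.mem_bot, commutatorElement_eq_one_iff_mul_comm] at h1
    exact Subtype.ext h1
  have hMfg : Group.FG (commutator (H ⧸ D)) := (Group.fg_iff_subgroup_fg _).2 (h _)
  have hNfg : (commutator (commutator (H ⧸ D))).FG := by
    have h1 := h ((commutator (commutator (H ⧸ D))).map (commutator (H ⧸ D)).subtype)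
    have h2 : Group.FG ((commutator (commutator (H ⧸ D))).map (commutator (H ⧸ D)).subtype) :=
      (Group.fg_iff_subgroup_fg _).2 h1
    have h3 : Group.FG (commutator (commutator (H ⧸ D))) := Group.fg_of_surjective
      (f := ((commutator (commutator (H ⧸ D))).equivMapOfInjective (commutator (H ⧸ D)).subtype
        Subtype.coe_injective).symm.toMonoidHom) (MulEquiv.surjective _)
    exact (Group.fg_iff_subgroup_fg _).1 h3
  refine vn_of_roots habel hNfg ?_
  intro m z ψ hψ0 hψ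
  have hc : commutator (H ⧸ D) = (commutator H).map π := by
    rw [_root_.commutator_def, _root_.commutator_def, map_commutator,
      map_top_of_surjective π hπ]
  obtain ⟨t, ht, htm⟩ := hc.le m.2
  exact hroots t ht z (ef_of_quot π hπ _ mem_comm_iff t m htm z ψ hψ0 hψ)

/-- **the dichotomy** -/
theorem gap {G : Type u} [Group G] (S : Set G) (hfin : S.Finite) (hsym : S⁻¹ = S)
    (hgen : closure S = ⊤) (H : Subgroup G) (d : ℕ) (hH : H.index ≠ 0) (hd : H.index ≤ d)
    {δ : ℝ} (hδ : 0 < δ)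
    (hbig : Module.Finite ℤ (AbN (derivedSeries H 2)) → ∀ t ∈ commutator H, ∀ z : ℂ,
      EF (derivedSeries H 2) t z → IsIntegral ℤ z → IsIntegral ℤ z⁻¹ →
      (∀ n > 0, z ^ n ≠ 1) → ∃ w : ℂ, aeval w (minpoly ℤ z) = 0 ∧ Real.exp δ ≤ ‖w‖) :
    Real.log 2 / (88 * LL δ * (2 * d - 1)) ≤ H746UG.rho S ∨
      ((∀ K : Subgroup (H ⧸ derivedSeries H 3), K.FG) ∧
        Group.IsVirtuallyNilpotent (commutator (H ⧸ derivedSeries H 3))) := by
  have hd1 : 1 ≤ d := by omega
  have hpos : (0 : ℝ) < 2 * d - 1 := by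
    have : (1 : ℝ) ≤ d := by exact_mod_cast hd1
    linarith
  have hl2 : 0 < Real.log 2 := Real.log_pos (by norm_num)
  have hLL : 1 ≤ LL δ := by
    have : 0 < Real.log 3 := Real.log_pos (by norm_num)
    have h1 : 0 < 2 * Real.log 3 / δ := by positivity
    unfold LL
    linarith
  rcases final S hfin hsym hgen H d hH hd with h | ⟨h, -⟩
  · left
    refine le_trans ?_ h
    apply div_le_div_of_nonneg_left hl2.le (by positivity)
    have : 88 * (2 * (d : ℝ) - 1) * 1 ≤ 88 * (2 * (d : ℝ) - 1) * LL δ :=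
      mul_le_mul_of_nonneg_left hLL (by positivity)
    linarith
  have hfinM : Module.Finite ℤ (AbN (derivedSeries H 2)) := fin_of_fg h
  by_cases hex : ∃ t ∈ commutator H, ∃ z : ℂ, EF (derivedSeries H 2) t z ∧ ∀ n > 0, z ^ n ≠ 1
  swap
  · right
    refine ⟨h, vn_quot h ?_⟩
    intro t ht z hz
    by_contra hcon
    push Not at hcon
    exact hex ⟨t, ht, z, hz, hcon⟩
  left
  rcases S.eq_empty_or_nonempty with hS | hne
  · exfalso
    have htriv : ∀ x : G, x = 1 := by
      intro x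
      have hx : x ∈ closure S := by rw [hgen]; exact mem_top x
      rw [hS, Subgroup.closure_empty, Subgroup.mem_bot] at hx
      exact hx
    obtain ⟨t, ht, z, ⟨φ, hφ0, hφ⟩, hz⟩ := hex
    apply hφ0
    apply LinearMap.ext
    intro a
    obtain ⟨x, rfl⟩ := cls_surj _ a
    have : x = 1 := Subtype.ext (Subtype.ext (htriv _))
    rw [this, cls_one, map_zero, LinearMap.zero_apply]
  set T := W963.GE.TT S H d with hT
  have hTfin : T.Finite := W963.GE.TT_finite S hfin H d
  have hTgen : closure T = ⊤ := W963.GE.TT_gen S hgen H hH hd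
  have h1T : (1 : H) ∈ T := by
    show ((1 : H) : G) ∈ (insert 1 S) ^ (2 * d - 1)
    have : (1 : G) ∈ insert 1 S := Set.mem_insert _ _
    simpa using Set.pow_mem_pow (n := 2 * d - 1) this
  have hinv1 : (insert 1 S)⁻¹ = insert 1 S := by
    rw [Set.inv_insert, inv_one, hsym]
  have hTinv : T⁻¹ = T := by
    ext x
    rw [Set.mem_inv]
    constructor
    · intro hx
      have := inv_mem_pow hinv1 (show ((x⁻¹ : H) : G) ∈ (insert 1 S) ^ (2 * d - 1) from hx)
      rw [← coe_inv, inv_inv] at this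
      exact this
    · intro hx
      exact inv_mem_pow hinv1 (show (x : G) ∈ (insert 1 S) ^ (2 * d - 1) from hx)
  have h3 := core T hTfin h1T hTinv hTgen (derivedSeries H 2) mem_comm_iff hδ (hbig hfinM) hex
  have h4 := W963.GE.rho_TT S hfin hne H hd1
  have he : ((2 * d - 1 : ℕ) : ℝ) = 2 * d - 1 := by
    rw [Nat.cast_sub (by omega)]; push_cast; ring
  rw [he] at h4
  have h5 := h3.trans h4
  rw [← div_div, div_le_iff₀ hpos, mul_comm (H746UG.rho S)]
  exact h5

lemma LL_le {δ : ℝ} (hδ : 0 < δ) : LL δ ≤ 2 + 2.2 / δ := by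
  have h1 : Real.log 3 ≤ 1.1 := by
    rw [Real.log_le_iff_le_exp (by norm_num)]
    have h2 : (3 : ℝ) ^ 10 < Real.exp 1.1 ^ 10 := by
      rw [← Real.exp_nat_mul]
      have e : ((10 : ℕ) : ℝ) * 1.1 = ((11 : ℕ) : ℝ) * 1 := by norm_num
      rw [e, Real.exp_nat_mul]
      calc (3 : ℝ) ^ 10 < (2.7182818283 : ℝ) ^ 11 := by norm_num
        _ ≤ _ := pow_le_pow_left₀ (by norm_num) Real.exp_one_gt_d9.le 11
    exact (lt_of_pow_lt_pow_left₀ 10 (Real.exp_pos _).le h2).le
  unfold LL
  have : 2 * Real.log 3 / δ ≤ 2.2 / δ := div_le_div_of_nonneg_right (by linarith) hδ.le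
  linarith

end Pool.Agent.U161.AR
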