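import Mathlib

/-!
# Subset sums of complex numbers with many orders of magnitude
-/

set_option autoImplicit false

namespace Pool.Agent.U161.AR

open Finset

/-- super-increasing families -/
lemma super {ι : Type*} [DecidableEq ι] (v : ι → ℝ) (hv : ∀ i, 0 < v i) :
    ∀ (n : ℕ) (Q : Finset ι), Q.card = n →
      (∀ i ∈ Q, ∀ j ∈ Q, i ≠ j → 3 * v i ≤ v j ∨ 3 * v j ≤ v i) →
      ∀ i₀ ∈ Q, (∀ i ∈ Q, v i ≤ v i₀) → ∑ i ∈ Q.erase i₀, v i ≤ v i₀ / 2 := by
  intro n
  induction n with
  | zero =>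
    intro Q hQ _ i₀ hi₀
    rw [Finset.card_eq_zero] at hQ
    rw [hQ] at hi₀
    exact absurd hi₀ (Finset.notMem_empty _)
  | succ n ih =>
    intro Q hQ hsp i₀ hi₀ hmax
    set Q' := Q.erase i₀ with hQ'
    have hcard : Q'.card = n := by rw [hQ', card_erase_of_mem hi₀, hQ]; rfl
    rcases Q'.eq_empty_or_nonempty with h | h
    · rw [h, sum_empty]
      have := hv i₀
      linarith
    obtain ⟨i₁, hi₁, hmax₁⟩ := Q'.exists_max_image v h
    have h1 := ih Q' hcard (fun i hi j hj => hsp i (mem_of_mem_erase hi) j (mem_of_mem_erase hj))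
      i₁ hi₁ hmax₁
    rw [← add_sum_erase Q' v hi₁]
    have h2 : 3 * v i₁ ≤ v i₀ := by
      rcases hsp i₁ (mem_of_mem_erase hi₁) i₀ hi₀ (ne_of_mem_erase hi₁) with h3 | h3
      · exact h3
      · have h4 := hmax i₁ (mem_of_mem_erase hi₁)
        have h5 := hv i₀
        linarith
    linarith

/-- a set of at least half the size on which a function with values in `ℤ` has values which differ
by at least two -/
lemma exists_spaced {R : ℕ} (f : Fin R → ℤ) : ∃ P : Finset (Fin R),
    (Set.range f).ncard ≤ 2 * P.card ∧ ∀ r ∈ P, ∀ r' ∈ P, r ≠ r' →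
      f r + 2 ≤ f r' ∨ f r' + 2 ≤ f r := by
  classical
  have e0 : (Set.range f).ncard = (univ.image f).card := by
    rw [← Set.ncard_coe_finset]
    simp
  rw [e0]
  have hsplit := Finset.card_filter_add_card_filter_not (s := univ.image f) (fun z => Even z)
  -- choice of representatives
  have hrep : ∀ C : Finset ℤ, C ⊆ univ.image f → ∃ P : Finset (Fin R), P.card = C.card ∧
      Set.InjOn f P ∧ ∀ r ∈ P, f r ∈ C := by
    intro C hC
    have h1 : ∀ z : C, ∃ r : Fin R, f r = z := by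
      intro z
      obtain ⟨r, -, hr⟩ := mem_image.1 (hC z.2)
      exact ⟨r, hr⟩
    choose ρ hρ using h1
    have hinj : Function.Injective ρ := by
      intro a b hab
      apply Subtype.ext
      rw [← hρ a, ← hρ b, hab]
    refine ⟨univ.image ρ, ?_, ?_, ?_⟩
    · rw [card_image_of_injective _ hinj, card_univ, Fintype.card_coe]
    · intro r hr r' hr' hrr
      rw [coe_image] at hr hr'
      obtain ⟨a, -, rfl⟩ := hr
      obtain ⟨b, -, rfl⟩ := hr'
      rw [hρ, hρ] at hrr
      rw [Subtype.ext hrr]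
    · intro r hr
      obtain ⟨a, -, rfl⟩ := mem_image.1 hr
      rw [hρ]
      exact a.2
  rcases le_total ((univ.image f).filter fun z => ¬ Even z).card
    ((univ.image f).filter fun z => Even z).card with h | h
  · obtain ⟨P, hP1, hP2, hP3⟩ := hrep _ (filter_subset (fun z => Even z) (univ.image f))
    refine ⟨P, by omega, ?_⟩
    intro r hr r' hr' hrr
    have h1 : f r ≠ f r' := fun h => hrr (hP2 hr hr' h)
    have h2 := (mem_filter.1 (hP3 r hr)).2
    have h3 := (mem_filter.1 (hP3 r' hr')).2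
    obtain ⟨a, ha⟩ := h2
    obtain ⟨b, hb⟩ := h3
    omega
  · obtain ⟨P, hP1, hP2, hP3⟩ := hrep _ (filter_subset (fun z => ¬ Even z) (univ.image f))
    refine ⟨P, by omega, ?_⟩
    intro r hr r' hr' hrr
    have h1 : f r ≠ f r' := fun h => hrr (hP2 hr hr' h)
    have h2 := (mem_filter.1 (hP3 r hr)).2
    have h3 := (mem_filter.1 (hP3 r' hr')).2
    rw [Int.not_even_iff_odd] at h2 h3
    obtain ⟨a, ha⟩ := h2
    obtain ⟨b, hb⟩ := h3
    omega

/-- **subset sums of complex numbers with many orders of magnitude** -/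
theorem fib (R : ℕ) (a : Fin R → ℂ) (ha : ∀ r, a r ≠ 0) (y : ℂ) :
    2 ^ (((Set.range fun r => ⌊Real.log ‖a r‖ / Real.log 3⌋).ncard + 1) / 2) *
      Nat.card {x : Fin R → Bool // ∑ r, (if x r then a r else 0) = y} ≤ 2 ^ R := by
  classical
  obtain ⟨P, hP1, hP2⟩ := exists_spaced (fun r => ⌊Real.log ‖a r‖ / Real.log 3⌋)
  have hl3 : 0 < Real.log 3 := Real.log_pos (by norm_num)
  have hv : ∀ r, 0 < ‖a r‖ := fun r => norm_pos_iff.2 (ha r)
  have hstep : ∀ r r' : Fin R, ⌊Real.log ‖a r‖ / Real.log 3⌋ + 2 ≤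
      ⌊Real.log ‖a r'‖ / Real.log 3⌋ → 3 * ‖a r‖ ≤ ‖a r'‖ := by
    intro r r' h
    have h1 := Int.lt_floor_add_one (Real.log ‖a r‖ / Real.log 3)
    have h2 := Int.floor_le (Real.log ‖a r'‖ / Real.log 3)
    have h3 : ((⌊Real.log ‖a r‖ / Real.log 3⌋ + 2 : ℤ) : ℝ) ≤
        (⌊Real.log ‖a r'‖ / Real.log 3⌋ : ℝ) := by exact_mod_cast h
    push_cast at h3
    have h4 : Real.log ‖a r‖ / Real.log 3 + 1 ≤ Real.log ‖a r'‖ / Real.log 3 := by linarith
    have h5 : Real.log ‖a r‖ + Real.log 3 ≤ Real.log ‖a r'‖ := by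
      rw [div_add_one hl3.ne', div_le_div_iff_of_pos_right hl3] at h4
      exact h4
    rw [← Real.log_mul (hv r).ne' (by norm_num)] at h5
    have h6 := (Real.log_le_log_iff (by have := hv r; positivity) (hv r')).1 h5
    linarith
  have hsp : ∀ i ∈ P, ∀ j ∈ P, i ≠ j → 3 * ‖a i‖ ≤ ‖a j‖ ∨ 3 * ‖a j‖ ≤ ‖a i‖ := by
    intro i hi j hj hij
    rcases hP2 i hi j hj hij with h | h
    · exact Or.inl (hstep i j h)
    · exact Or.inr (hstep j i h)
  have hinj : Function.Injective
      (fun (x : {x : Fin R → Bool // ∑ r, (if x r then a r else 0) = y})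
        (r : ((P : Set (Fin R))ᶜ : Set (Fin R))) => x.1 r.1) := by
    rintro ⟨x, hx⟩ ⟨x', hx'⟩ h
    have hoff : ∀ r, r ∉ P → x r = x' r := fun r hr => congrFun h ⟨r, hr⟩
    apply Subtype.ext
    funext r
    by_contra hne
    set Q : Finset (Fin R) := Finset.univ.filter (fun r => x r ≠ x' r) with hQ
    have hQne : Q.Nonempty := ⟨r, by simpa [hQ] using hne⟩
    obtain ⟨r0, hr0, hmax⟩ := Q.exists_max_image (fun r => ‖a r‖) hQne
    set c : Fin R → ℂ := fun r => (if x r then a r else 0) - (if x' r then a r else 0) with hc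
    have hcv : ∀ r ∈ Q, ‖c r‖ = ‖a r‖ := by
      intro r hr
      have hr' : x r ≠ x' r := by simpa [hQ] using hr
      simp only [hc]
      cases hxr : x r <;> cases hxr' : x' r
      · exact absurd (hxr.trans hxr'.symm) hr'
      · simp
      · simp
      · exact absurd (hxr.trans hxr'.symm) hr'
    have hc0 : ∀ r, r ∉ Q → c r = 0 := by
      intro r hr
      have hr' : x r = x' r := by simpa [hQ] using hr
      simp [hc, hr']
    have hsum : ∑ r, c r = 0 := by
      simp only [hc, Finset.sum_sub_distrib, hx, hx', sub_self]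
    have hsumQ : ∑ r ∈ Q, c r = 0 := by
      rw [← hsum]
      exact Finset.sum_subset (Finset.subset_univ _) (fun r _ hr => hc0 r hr)
    rw [← Finset.add_sum_erase Q c hr0] at hsumQ
    have hQP : ∀ r ∈ Q, r ∈ P := by
      intro r hr
      by_contra hrP
      have hr' : x r ≠ x' r := by simpa [hQ] using hr
      exact hr' (hoff r hrP)
    have h1 := super (fun r => ‖a r‖) hv Q.card Q rfl
      (fun i hi j hj hij => hsp i (hQP i hi) j (hQP j hj) hij) r0 hr0 hmax
    have h2 : ‖c r0‖ ≤ ∑ r ∈ Q.erase r0, ‖a r‖ := by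
      have h3 : c r0 = - ∑ r ∈ Q.erase r0, c r := by
        rw [eq_neg_iff_add_eq_zero]; exact hsumQ
      rw [h3, norm_neg]
      refine (norm_sum_le _ _).trans (le_of_eq ?_)
      exact Finset.sum_congr rfl fun i hi => hcv i (mem_of_mem_erase hi)
    rw [hcv r0 hr0] at h2
    have h3 := hv r0
    linarith
  have hcard : Nat.card {x : Fin R → Bool // ∑ r, (if x r then a r else 0) = y} ≤
      2 ^ ((P : Set (Fin R))ᶜ : Set (Fin R)).ncard := by
    have h1 := Nat.card_le_card_of_injective _ hinj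
    refine h1.trans (le_of_eq ?_)
    rw [Nat.card_fun, Nat.card_coe_set_eq]
    simp
  have hPc : P.card + ((P : Set (Fin R))ᶜ : Set (Fin R)).ncard = R := by
    have := Set.ncard_add_ncard_compl (P : Set (Fin R))
    rw [Set.ncard_coe_finset] at this
    simpa using this
  have hle : ((Set.range fun r => ⌊Real.log ‖a r‖ / Real.log 3⌋).ncard + 1) / 2 ≤ P.card := by
    omega
  calc 2 ^ (((Set.range fun r => ⌊Real.log ‖a r‖ / Real.log 3⌋).ncard + 1) / 2) *
        Nat.card {x : Fin R → Bool // ∑ r, (if x r then a r else 0) = y}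
      ≤ 2 ^ P.card * 2 ^ ((P : Set (Fin R))ᶜ : Set (Fin R)).ncard :=
        Nat.mul_le_mul (Nat.pow_le_pow_right (by norm_num) hle) hcard
    _ = 2 ^ R := by rw [← pow_add, hPc]

end Pool.Agent.U161.AR
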