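import Mathlib
import Pool.Agent.N713.G3.Sec

/-!
# Second moment lemma with cells of positive width
-/

set_option autoImplicit false

namespace Pool.Agent.U161.AR

open Finset
open Pool.Agent.N713.G3 (count2)

/-- the cell of the position `r g + ξ` -/
noncomputable def cell (w g : ℝ) (n : ℕ) (ξ : ℝ) : ℤ := ⌊(n * g + ξ) / w⌋

/-- few positions of an arithmetic progression are in the same cell -/
lemma card_cell {w g : ℝ} (hw : 0 < w) (hg : g ≠ 0) (R : ℕ) (ξ : ℝ) (z : ℤ) :
    ((univ.filter fun r : Fin R => z = cell w g r ξ).card : ℝ) ≤ w / |g| + 1 := by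
  classical
  set s := univ.filter fun r : Fin R => z = cell w g r ξ with hs
  have hg' : 0 < |g| := abs_pos.2 hg
  rcases s.eq_empty_or_nonempty with h | h
  · rw [h, card_empty, Nat.cast_zero]
    positivity
  -- extreme elements
  obtain ⟨a, ha, hamin⟩ := s.exists_min_image (fun r => (r : ℕ)) h
  obtain ⟨b, hb, hbmax⟩ := s.exists_max_image (fun r => (r : ℕ)) h
  have hab : (a : ℕ) ≤ b := hamin b hb
  have hcard : s.card ≤ (b : ℕ) - a + 1 := by
    have h1 : s.card ≤ (Finset.Icc (a : ℕ) b).card := by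
      refine Finset.card_le_card_of_injOn (fun r => (r : ℕ)) ?_ ?_
      · intro r hr
        exact Finset.mem_coe.2 (Finset.mem_Icc.2 ⟨hamin r hr, hbmax r hr⟩)
      · intro r _ r' _ hrr
        exact Fin.ext hrr
    rw [Nat.card_Icc] at h1
    omega
  have hdiff : ((b : ℕ) - (a : ℕ) : ℝ) * |g| < w := by
    rw [hs, mem_filter] at ha hb
    have e1 := ha.2
    have e2 := hb.2
    unfold cell at e1 e2
    have f1 := Int.floor_le (((a : ℕ) * g + ξ) / w)
    have f2 := Int.lt_floor_add_one (((a : ℕ) * g + ξ) / w)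
    have f3 := Int.floor_le (((b : ℕ) * g + ξ) / w)
    have f4 := Int.lt_floor_add_one (((b : ℕ) * g + ξ) / w)
    rw [← e1] at f1 f2
    rw [← e2] at f3 f4
    have g1 : ((b : ℕ) * g + ξ) / w - ((a : ℕ) * g + ξ) / w < 1 := by linarith
    have g2 : -1 < ((b : ℕ) * g + ξ) / w - ((a : ℕ) * g + ξ) / w := by linarith
    have g3 : ((b : ℕ) * g + ξ) / w - ((a : ℕ) * g + ξ) / w = (((b : ℕ) - (a : ℕ) : ℝ) * g) / w := by
      ring
    rw [g3] at g1 g2
    rw [div_lt_iff₀ hw, one_mul] at g1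
    rw [lt_div_iff₀ hw, neg_mul, one_mul] at g2
    have g4 : (0 : ℝ) ≤ ((b : ℕ) - (a : ℕ) : ℝ) := by
      have : ((a : ℕ) : ℝ) ≤ (b : ℕ) := by exact_mod_cast hab
      linarith
    calc ((b : ℕ) - (a : ℕ) : ℝ) * |g| = |((b : ℕ) - (a : ℕ) : ℝ) * g| := by
          rw [abs_mul, abs_of_nonneg g4]
      _ < w := abs_lt.2 ⟨g2, g1⟩
  have h2 : ((b : ℕ) - (a : ℕ) : ℝ) < w / |g| := by rwa [lt_div_iff₀ hg']
  have h3 : (s.card : ℝ) ≤ ((b : ℕ) - (a : ℕ) : ℝ) + 1 := by
    have h4 : (s.card : ℝ) ≤ (((b : ℕ) - (a : ℕ) + 1 : ℕ) : ℝ) := by exact_mod_cast hcard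
    rw [Nat.cast_add, Nat.cast_sub hab, Nat.cast_one] at h4
    exact h4
  linarith

/-- the number of values and the number of coincidences -/
theorem ncard_ge {Γ : Type*} {R : ℕ} (f : Fin R → Γ) [DecidableEq Γ] {L : ℝ} (hL : 0 < L) :
    2 / L * R - (∑ r, ∑ r', if f r = f r' then (1 : ℝ) else 0) / L ^ 2 ≤
      ((Set.range f).ncard : ℝ) := by
  have e0 : (Set.range f).ncard = (univ.image f).card := by
    rw [← Set.ncard_coe_finset]
    simp
  rw [e0]
  have e1 : ∀ r, ∑ r', (if f r = f r' then (1 : ℝ) else 0) =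
      ((univ.filter fun a => f a = f r).card : ℝ) := by
    intro r
    rw [card_filter]
    push_cast
    refine sum_congr rfl fun r' _ => ?_
    simp only [eq_comm]
  simp only [e1]
  have e2 : ∑ r, ((univ.filter fun a => f a = f r).card : ℝ) =
      ∑ y ∈ univ.image f, ((univ.filter fun a => f a = y).card : ℝ) *
        ((univ.filter fun a => f a = y).card : ℝ) := by
    rw [sum_comp (fun y => ((univ.filter fun a => f a = y).card : ℝ)) f]
    simp only [nsmul_eq_mul]
  have e3 : (R : ℝ) = ∑ y ∈ univ.image f, ((univ.filter fun a => f a = y).card : ℝ) := by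
    have := sum_comp (s := univ) (fun _ : Γ => (1 : ℝ)) f
    simp only [nsmul_eq_mul, mul_one, sum_const, card_univ, Fintype.card_fin] at this
    exact this
  have e4 : ((univ.image f).card : ℝ) = ∑ y ∈ univ.image f, (1 : ℝ) := by simp
  rw [e2, e4]
  conv_lhs => rw [e3]
  rw [sum_div, mul_sum, ← sum_sub_distrib]
  refine sum_le_sum fun y _ => ?_
  set c : ℝ := ((univ.filter fun a => f a = y).card : ℝ) with hc
  have h1 : 0 ≤ (c / L - 1) ^ 2 := sq_nonneg _
  have h2 : (c / L - 1) ^ 2 = c * c / L ^ 2 - 2 / L * c + 1 := by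
    field_simp
    ring
  linarith

/-- **second moment lemma** -/
theorem sec {w g : ℝ} (hw : 0 < w) (hg : g ≠ 0) (A : Type) [Fintype A] [Nonempty A] (ξ : A → ℝ)
    (R : ℕ) : (R : ℝ) / (2 + w / |g|) * (Fintype.card A : ℝ) ^ R ≤
      ∑ x : Fin R → A, ((Set.range fun r : Fin R => cell w g r (ξ (x r))).ncard : ℝ) := by
  classical
  set q := Fintype.card A with hq
  have hq0 : 0 < q := Fintype.card_pos
  have hqR : (0 : ℝ) < q := by exact_mod_cast hq0
  have hg' : 0 < |g| := abs_pos.2 hg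
  set L : ℝ := 2 + w / |g| with hL
  have hL0 : 0 < L := by positivity
  have huniq : ∀ (r : Fin R) (p : A × A), (∑ r' : Fin R,
      if cell w g r (ξ p.1) = cell w g r' (ξ p.2) then (1 : ℝ) else 0) ≤ w / |g| + 1 := by
    intro r p
    have h1 := card_cell hw hg R (ξ p.2) (cell w g r (ξ p.1))
    rw [card_filter] at h1
    push_cast at h1
    exact h1
  have hrow : ∀ r : Fin R, (∑ r' : Fin R, ((univ.filter fun p : A × A =>
      cell w g r (ξ p.1) = cell w g r' (ξ p.2)).card : ℝ)) ≤ (w / |g| + 1) * (q : ℝ) ^ 2 := by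
    intro r
    simp only [card_filter]
    push_cast
    rw [sum_comm]
    refine (sum_le_sum fun p _ => huniq r p).trans ?_
    rw [sum_const, card_univ, Fintype.card_prod, ← hq, nsmul_eq_mul]
    push_cast
    apply le_of_eq
    ring
  have hN : ∀ r r' : Fin R, ((univ.filter fun x : Fin R → A =>
      cell w g r (ξ (x r)) = cell w g r' (ξ (x r'))).card : ℝ) * (q : ℝ) ^ 2 ≤
      (q : ℝ) ^ R * ((univ.filter fun p : A × A =>
        cell w g r (ξ p.1) = cell w g r' (ξ p.2)).card : ℝ) +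
        (if r = r' then (q : ℝ) ^ R * (q : ℝ) ^ 2 else 0) := by
    intro r r'
    by_cases h : r = r'
    · rw [if_pos h]
      have h1 : (univ.filter fun x : Fin R → A =>
          cell w g r (ξ (x r)) = cell w g r' (ξ (x r'))).card ≤ q ^ R := by
        refine (card_le_univ _).trans ?_
        simp [hq]
      have h2 : ((univ.filter fun x : Fin R → A =>
          cell w g r (ξ (x r)) = cell w g r' (ξ (x r'))).card : ℝ) ≤ (q : ℝ) ^ R := by
        exact_mod_cast h1
      have h3 : (0 : ℝ) ≤ (q : ℝ) ^ R * ((univ.filter fun p : A × A =>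
        cell w g r (ξ p.1) = cell w g r' (ξ p.2)).card : ℝ) := by positivity
      have h4 := mul_le_mul_of_nonneg_right h2 (by positivity : (0 : ℝ) ≤ (q : ℝ) ^ 2)
      linarith
    · rw [if_neg h, add_zero]
      have h3 := count2 h fun a a' => cell w g r (ξ a) = cell w g r' (ξ a')
      rw [← hq] at h3
      have h4 : ((univ.filter fun x : Fin R → A =>
          cell w g r (ξ (x r)) = cell w g r' (ξ (x r'))).card * q ^ 2 : ℕ) =
          q ^ R * (univ.filter fun p : A × A =>
            cell w g r (ξ p.1) = cell w g r' (ξ p.2)).card := by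
        convert h3
      exact le_of_eq (by exact_mod_cast h4)
  have hT0 : ∀ r : Fin R, (∑ r' : Fin R, ((univ.filter fun x : Fin R → A =>
      cell w g r (ξ (x r)) = cell w g r' (ξ (x r'))).card : ℝ)) ≤ L * (q : ℝ) ^ R := by
    intro r
    have h1 : (∑ r' : Fin R, ((univ.filter fun x : Fin R → A =>
        cell w g r (ξ (x r)) = cell w g r' (ξ (x r'))).card : ℝ)) * (q : ℝ) ^ 2 ≤
        (L * (q : ℝ) ^ R) * (q : ℝ) ^ 2 := by
      rw [sum_mul]
      refine (sum_le_sum fun r' _ => hN r r').trans ?_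
      rw [sum_add_distrib, ← mul_sum]
      have h2 := mul_le_mul_of_nonneg_left (hrow r) (by positivity : (0 : ℝ) ≤ (q : ℝ) ^ R)
      have h3 : (∑ r' : Fin R, if r = r' then (q : ℝ) ^ R * (q : ℝ) ^ 2 else 0) =
          (q : ℝ) ^ R * (q : ℝ) ^ 2 := by
        simp
      rw [h3]
      have h4 : (L * (q : ℝ) ^ R) * (q : ℝ) ^ 2 =
          (q : ℝ) ^ R * ((w / |g| + 1) * (q : ℝ) ^ 2) + (q : ℝ) ^ R * (q : ℝ) ^ 2 := by
        rw [hL]; ring
      rw [h4]
      linarith
    exact le_of_mul_le_mul_right h1 (by positivity)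
  have hT : ∑ x : Fin R → A, ∑ r : Fin R, ∑ r' : Fin R,
      (if cell w g r (ξ (x r)) = cell w g r' (ξ (x r')) then (1 : ℝ) else 0) ≤
      R * (L * (q : ℝ) ^ R) := by
    rw [sum_comm]
    have h1 : ∀ r : Fin R, ∑ x : Fin R → A, ∑ r' : Fin R,
        (if cell w g r (ξ (x r)) = cell w g r' (ξ (x r')) then (1 : ℝ) else 0) ≤
        L * (q : ℝ) ^ R := by
      intro r
      rw [sum_comm]
      have h2 := hT0 r
      simp only [card_filter] at h2
      push_cast at h2
      exact h2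
    refine (sum_le_sum fun r _ => h1 r).trans ?_
    simp
  have hfin : ∑ x : Fin R → A, (2 / L * (R : ℝ) - (∑ r : Fin R, ∑ r' : Fin R,
      (if cell w g r (ξ (x r)) = cell w g r' (ξ (x r')) then (1 : ℝ) else 0)) / L ^ 2) ≤
      ∑ x : Fin R → A, ((Set.range fun r : Fin R => cell w g r (ξ (x r))).ncard : ℝ) :=
    sum_le_sum fun x _ => ncard_ge (fun r : Fin R => cell w g r (ξ (x r))) hL0
  refine le_trans ?_ hfin
  rw [sum_sub_distrib, ← sum_div]
  have h5 : ∑ _x : Fin R → A, 2 / L * (R : ℝ) = (q : ℝ) ^ R * (2 / L * R) := by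
    rw [sum_const, card_univ, Fintype.card_fun, Fintype.card_fin, nsmul_eq_mul]
    push_cast
    rfl
  rw [h5]
  have h6 : (∑ x : Fin R → A, ∑ r : Fin R, ∑ r' : Fin R,
      (if cell w g r (ξ (x r)) = cell w g r' (ξ (x r')) then (1 : ℝ) else 0)) / L ^ 2 ≤
      R * (L * (q : ℝ) ^ R) / L ^ 2 := div_le_div_of_nonneg_right hT (by positivity)
  have h7 : (R : ℝ) * (L * (q : ℝ) ^ R) / L ^ 2 = R / L * (q : ℝ) ^ R := by
    field_simp
  have h8 : (q : ℝ) ^ R * (2 / L * R) = 2 * (R / L * (q : ℝ) ^ R) := by ring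
  rw [h7] at h6
  rw [h8]
  linarith

end Pool.Agent.U161.AR
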