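import Mathlib
import Pool.Agent.N600.G3.Stm

/-!
# The statements on crossed homomorphisms for complex values, in all universes
-/

set_option autoImplicit false

namespace Pool.Agent.U161.AR

open Pool.Agent.N600.G3

universe u

/-- the isomorphism of `ℂ` with its copy in the universe `u` -/
noncomputable def up : ℂ ≃+* ULift.{u} ℂ := ULift.ringEquiv.symm

/-- the character with values in the copy -/
noncomputable def upc {M : Type u} [Group M] (χ : M →* ℂˣ) : M →* (ULift.{u} ℂ)ˣ :=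
  (Units.map ((up.{u} : ℂ ≃+* ULift.{u} ℂ) : ℂ →* ULift.{u} ℂ)).comp χ

lemma upc_val {M : Type u} [Group M] (χ : M →* ℂˣ) (m : M) :
    ((upc χ m : (ULift.{u} ℂ)ˣ) : ULift.{u} ℂ) = up (χ m : ℂ) := rfl

lemma crossed_up {M : Type u} [Group M] {χ : M →* ℂˣ} {b : M → ℂ} (hb : Crossed χ b) :
    Crossed (upc χ) (fun m => up (b m)) := by
  intro m m'
  show up (b (m * m')) = up (b m) + (upc χ m : ULift.{u} ℂ) * up (b m')
  rw [hb, map_add, map_mul, upc_val]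

theorem prd (h : S_PRD.{u}) {M : Type u} [Group M] (χ : M →* ℂˣ) (b : M → ℂ)
    (hb : Crossed χ b) (U : M) (hU : b U = 0) (R : ℕ) (A : Fin R → M) :
    b (List.ofFn fun r => A r * U * (A r)⁻¹).prod =
      (1 - (χ U : ℂ)) * ∑ r : Fin R, (χ U : ℂ) ^ (r : ℕ) * b (A r) := by
  have h1 := h M (ULift.{u} ℂ) (upc χ) (fun m => up (b m)) (crossed_up hb) U
    (by show up (b U) = 0; rw [hU, map_zero]) R A
  apply up.{u}.injective
  rw [h1, map_mul, map_sub, map_one, map_sum]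
  simp only [map_mul, map_pow, upc_val]

theorem tri (h : S_TRI.{u}) {M : Type u} [Group M] (χ : M →* ℂˣ) (b : M → ℂ)
    (hb : Crossed χ b) (K : ℕ) (d : Fin K → M) (k : Fin K) (hd : ∀ j, k < j → b (d j) = 0) :
    ∃ (g : (Fin K → Bool) → ℂ) (σ : (Fin K → Bool) → ℂˣ),
      (∀ x x', (∀ i < k, x i = x' i) → g x = g x' ∧ σ x = σ x') ∧
      ∀ x, b (AA d x) = g x + (σ x : ℂ) * (if x k then b (d k) else 0) := by
  obtain ⟨g, σ, h1, h2⟩ := h M (ULift.{u} ℂ) (upc χ) (fun m => up (b m)) (crossed_up hb) K d k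
    (fun j hj => by show up (b (d j)) = 0; rw [hd j hj, map_zero])
  refine ⟨fun x => up.symm (g x), fun x =>
    Units.map ((up.{u}.symm : ULift.{u} ℂ ≃+* ℂ) : ULift.{u} ℂ →* ℂ) (σ x), ?_, ?_⟩
  · intro x x' hx
    obtain ⟨e1, e2⟩ := h1 x x' hx
    exact ⟨congrArg _ e1, congrArg _ e2⟩
  · intro x
    have h3 : up (b (AA d x)) = g x + (σ x : ULift.{u} ℂ) * (if x k then up (b (d k)) else 0) :=
      h2 x
    have h4 : b (AA d x) = up.{u}.symm (up.{u} (b (AA d x))) := (up.{u}.symm_apply_apply _).symm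
    have h5 : ((Units.map ((up.{u}.symm : ULift.{u} ℂ ≃+* ℂ) : ULift.{u} ℂ →* ℂ) (σ x) : ℂˣ) : ℂ) =
        up.symm (σ x : ULift.{u} ℂ) := rfl
    rw [h4, h3, map_add, map_mul, h5]
    congr 2
    split_ifs
    · exact up.symm_apply_apply _
    · exact map_zero _

theorem geo (h : S_GEO.{u}) (G : Type u) [Group G] (T : Set G) (h1T : 1 ∈ T) (hinv : T⁻¹ = T)
    (hgen : Subgroup.closure T = ⊤) (χ : commutator G →* ℂˣ) (b : commutator G → ℂ)
    (hb : Crossed χ b) (c : commutator G) (hc : (c : G) ∈ CT T) (hbc : b c = 0)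
    (hne : ∃ m, b m ≠ 0) :
    ∃ (K : ℕ) (s : ℕ → G) (d : commutator G), 0 < K ∧ (∀ i, s i ∈ T) ∧ (d : G) ∈ CT T ∧
      (∀ i < K, ∀ j < K, b (cj ((hh s i)⁻¹ * hh s j) c) = 0) ∧
      (∀ k i, k < i → i < K → b (cj ((hh s i)⁻¹ * hh s (K + k)) d) = 0) ∧
      (∀ k < K, b (cj ((hh s k)⁻¹ * hh s (K + k)) d) ≠ 0) := by
  have e0 : ∀ z : ℂ, up.{u} z = 0 ↔ z = 0 := fun z => map_eq_zero_iff up up.injective
  obtain ⟨m, hm⟩ := hne
  obtain ⟨K, s, d, h2, h3, h4, h5, h6, h7⟩ := h G T h1T hinv hgen (ULift.{u} ℂ) (upc χ)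
    (fun m => up (b m)) (crossed_up hb) c hc ((e0 _).2 hbc) ⟨m, fun h8 => hm ((e0 _).1 h8)⟩
  exact ⟨K, s, d, h2, h3, h4, fun i hi j hj => (e0 _).1 (h5 i hi j hj),
    fun k i hk hi => (e0 _).1 (h6 k i hk hi), fun k hk h8 => h7 k hk ((e0 _).2 h8)⟩

end Pool.Agent.U161.AR
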