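import Mathlib
import Pool.Agent.U161.AR.Sec
import Pool.Agent.U161.AR.Fib
import Pool.Agent.U161.AR.Lift
import Pool.Agent.N558.G3.CNT
import Pool.Agent.N499.G3.EPS

/-!
# The counting theorem for complex characters
-/

set_option autoImplicit false

namespace Pool.Agent.U161.AR

open Finset
open Pool.Agent.N600.G3 (AA Crossed S_ENTF S_PRD S_TRI)

universe u

/-- the logarithm of the absolute value of a complex character -/
noncomputable def lg {M : Type*} [Group M] (χ : M →* ℂˣ) : M →* Multiplicative ℝ where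
  toFun m := Multiplicative.ofAdd (Real.log ‖(χ m : ℂ)‖)
  map_one' := by simp
  map_mul' a b := by
    rw [← ofAdd_add, map_mul, Units.val_mul, norm_mul, Real.log_mul]
    · exact norm_ne_zero_iff.2 (Units.ne_zero _)
    · exact norm_ne_zero_iff.2 (Units.ne_zero _)

theorem flip_ge {M : Type*} [Group M] (w : M →* Multiplicative ℝ) {K : ℕ}
    (c : Fin K → M) (k : Fin K) {δ : ℝ} (hk : δ ≤ |(w (c k)).toAdd|) (ε : Fin K → Bool)
    (h : |(w (AA c ε)).toAdd| < δ / 2) :
    δ / 2 ≤ |(w (AA c (Function.update ε k (!ε k)))).toAdd| := by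
  have e1 := Pool.Agent.N499.G3.map_AA w c ε
  have e2 := Pool.Agent.N499.G3.map_AA w c (Function.update ε k (!ε k))
  rw [← Finset.mul_prod_erase _ _ (Finset.mem_univ k)] at e1 e2
  have he : ∏ j ∈ Finset.univ.erase k, w (if Function.update ε k (!ε k) j then c j else 1) =
      ∏ j ∈ Finset.univ.erase k, w (if ε j then c j else 1) := by
    refine Finset.prod_congr rfl fun j hj => ?_
    rw [Function.update_of_ne (Finset.ne_of_mem_erase hj)]
  rw [he, Function.update_self] at e2
  set P := ∏ j ∈ Finset.univ.erase k, w (if ε j then c j else 1) with hP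
  cases hε : ε k with
  | true =>
    rw [hε] at e1 e2
    simp only [if_true, Bool.not_true, Bool.false_eq_true, if_false, map_one, one_mul] at e1 e2
    rw [e1, toAdd_mul] at h
    rw [Bool.not_true, e2]
    have h1 : |(w (c k)).toAdd| ≤ |(w (c k)).toAdd + P.toAdd| + |P.toAdd| := by
      have := abs_sub (((w (c k)).toAdd + P.toAdd)) P.toAdd
      rw [add_sub_cancel_right] at this
      exact this
    linarith
  | false =>
    rw [hε] at e1 e2
    simp only [if_true, Bool.not_false, Bool.false_eq_true, if_false, map_one, one_mul] at e1 e2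
    rw [e1] at h
    rw [Bool.not_false, e2, toAdd_mul]
    have h1 : |(w (c k)).toAdd| ≤ |(w (c k)).toAdd + P.toAdd| + |P.toAdd| := by
      have := abs_sub (((w (c k)).toAdd + P.toAdd)) P.toAdd
      rw [add_sub_cancel_right] at this
      exact this
    linarith

/-- half of the characters can be made big or small at the same time -/
theorem eps {M : Type*} [Group M] (K : ℕ) (w : Fin K → M →* Multiplicative ℝ) (c : Fin K → M)
    {δ : ℝ} (hc : ∀ i, δ ≤ |(w i (c i)).toAdd|) :
    ∃ ε : Fin K → Bool,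
      K ≤ 2 * (Finset.univ.filter fun k : Fin K => δ / 2 ≤ |(w k (AA c ε)).toAdd|).card := by
  classical
  by_contra hcon
  push Not at hcon
  have h1 : ∀ k : Fin K, 2 ^ K ≤ 2 * (Finset.univ.filter
      fun ε : Fin K → Bool => δ / 2 ≤ |(w k (AA c ε)).toAdd|).card := by
    intro k
    have h2 := Finset.card_filter_add_card_filter_not (s := (Finset.univ : Finset (Fin K → Bool)))
      (fun ε : Fin K → Bool => δ / 2 ≤ |(w k (AA c ε)).toAdd|)
    have h3 : (Finset.univ.filter fun ε : Fin K → Bool => ¬ δ / 2 ≤ |(w k (AA c ε)).toAdd|).card ≤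
        (Finset.univ.filter fun ε : Fin K → Bool => δ / 2 ≤ |(w k (AA c ε)).toAdd|).card := by
      refine Finset.card_le_card_of_injOn (fun ε => Function.update ε k (!ε k)) ?_ ?_
      · intro ε hε
        have h4 : |(w k (AA c ε)).toAdd| < δ / 2 := by simpa using hε
        have h5 := flip_ge (w k) c k (hc k) ε h4
        simpa using h5
      · intro a _ b _ hab
        funext j
        have h4 := congrFun hab j
        by_cases hj : j = k
        · subst hj
          simpa using h4
        · simpa [Function.update_of_ne hj] using h4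
    have h4 : (Finset.univ : Finset (Fin K → Bool)).card = 2 ^ K := by
      rw [Finset.card_univ]
      simp
    omega
  have h6 : ∑ ε : Fin K → Bool,
      (Finset.univ.filter fun k : Fin K => δ / 2 ≤ |(w k (AA c ε)).toAdd|).card =
      ∑ k : Fin K, (Finset.univ.filter fun ε : Fin K → Bool =>
        δ / 2 ≤ |(w k (AA c ε)).toAdd|).card := by
    simp only [Finset.card_filter]
    exact Finset.sum_comm
  have h7 : K * 2 ^ K ≤ 2 * ∑ k : Fin K,
      (Finset.univ.filter fun ε : Fin K → Bool => δ / 2 ≤ |(w k (AA c ε)).toAdd|).card := by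
    rw [Finset.mul_sum]
    calc K * 2 ^ K = ∑ _k : Fin K, 2 ^ K := by simp
      _ ≤ _ := Finset.sum_le_sum fun k _ => h1 k
  have h8 : 2 * ∑ ε : Fin K → Bool,
      (Finset.univ.filter fun k : Fin K => δ / 2 ≤ |(w k (AA c ε)).toAdd|).card < K * 2 ^ K := by
    rw [Finset.mul_sum]
    calc ∑ ε : Fin K → Bool, 2 * (Finset.univ.filter fun k : Fin K =>
          δ / 2 ≤ |(w k (AA c ε)).toAdd|).card
        < ∑ _ε : Fin K → Bool, K :=
          Finset.sum_lt_sum_of_nonempty Finset.univ_nonempty fun ε _ => hcon ε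
      _ = K * 2 ^ K := by
          rw [Finset.sum_const, Finset.card_univ]
          simp [mul_comm]
  rw [h6] at h8
  exact absurd h7 (not_le.mpr h8)

/-- **the counting theorem for complex characters** -/
theorem cnt (h1 : S_ENTF.{0}) (h4 : S_PRD.{u}) (h5 : S_TRI.{u})
    (M : Type u) [Group M] (K : ℕ)
    (χ : Fin K → M →* ℂˣ) (b : Fin K → M → ℂ) (hb : ∀ k, Crossed (χ k) (b k))
    (c d : Fin K → M) (hbc : ∀ i j, b i (c j) = 0) (hbd : ∀ i j, i < j → b i (d j) = 0)
    (hdd : ∀ i, b i (d i) ≠ 0) {δ : ℝ} (hδ : 0 < δ)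
    (hv : ∀ i, δ ≤ |Real.log ‖(χ i (c i) : ℂ)‖|) :
    ∃ ε : Fin K → Bool, ∀ R : ℕ,
      Real.log 2 * (K * R) / (4 * (2 + 2 * Real.log 3 / δ)) ≤
        Real.log (Nat.card (Set.range fun δ : Fin R → Fin K → Bool =>
          (List.ofFn fun r => AA d (δ r) * AA c ε * (AA d (δ r))⁻¹).prod)) := by
  classical
  have hl3 : 0 < Real.log 3 := Real.log_pos (by norm_num)
  obtain ⟨ε, hε⟩ := eps K (fun k => lg (χ k)) c (δ := δ) hv
  refine ⟨ε, fun R => ?_⟩
  set L : ℝ := 2 + 2 * Real.log 3 / δ with hL
  have hL0 : 0 < L := by positivity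
  set U : M := AA c ε with hU
  have hbU : ∀ k, b k U = 0 := fun k => Pool.Agent.N558.G3.b_AA (hb k) c (hbc k) ε
  choose g σ hg hX using fun k => tri h5 (χ k) (b k) (hb k) K d k (hbd k)
  let u : Fin K → ℂ := fun k => (χ k U : ℂ)
  let G : Fin K → ℝ := fun k => Real.log ‖u k‖
  let row : (Fin K → Fin R → Bool) → Fin R → Fin K → Bool := fun δ r j => δ j r
  let P : (Fin R → Fin K → Bool) → M := fun δ =>
    (List.ofFn fun r => AA d (δ r) * U * (AA d (δ r))⁻¹).prod
  let X : (Fin K → Fin R → Bool) → Fin K → ℂ := fun δ k => b k (P (row δ))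
  have hform : ∀ δ k, X δ k = (1 - u k) * ∑ r : Fin R, u k ^ (r : ℕ) *
      (g k (row δ r) + (σ k (row δ r) : ℂ) * (if δ k r then b k (d k) else 0)) := by
    intro δ k
    show b k (List.ofFn fun r => AA d (row δ r) * U * (AA d (row δ r))⁻¹).prod = _
    rw [prd h4 (χ k) (b k) (hb k) U (hbU k) R (fun r => AA d (row δ r))]
    congr 1
    refine Finset.sum_congr rfl fun r _ => ?_
    rw [hX]
  have hupd : ∀ δ k x, X (Function.update δ k x) k =
      (1 - u k) * ∑ r : Fin R, u k ^ (r : ℕ) * g k (row δ r) +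
      ∑ r : Fin R, (if x r then (1 - u k) * b k (d k) *
        (u k ^ (r : ℕ) * (σ k (row δ r) : ℂ)) else 0) := by
    intro δ k x
    rw [hform, Finset.mul_sum, Finset.mul_sum, ← Finset.sum_add_distrib]
    refine Finset.sum_congr rfl fun r _ => ?_
    have e := hg k (row (Function.update δ k x) r) (row δ r) (fun i hi => by
      show Function.update δ k x i r = δ i r
      rw [Function.update_of_ne hi.ne])
    rw [e.1, e.2, Function.update_self]
    split_ifs
    · ring
    · ring
  have hdep : ∀ k δ δ', (∀ i ≤ k, δ i = δ' i) → X δ k = X δ' k := by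
    intro k δ δ' h
    rw [hform, hform]
    congr 1
    refine Finset.sum_congr rfl fun r _ => ?_
    have e := hg k (row δ r) (row δ' r) (fun i hi => congrFun (h i hi.le) r)
    rw [e.1, e.2, congrFun (h k le_rfl) r]
  have hu0 : ∀ k, u k ≠ 0 := fun k => Units.ne_zero _
  -- the additional offset of the logarithms of the absolute values
  let ξ : Fin K → (Fin K → Bool) → ℝ := fun k x =>
    Real.log ‖(1 - u k) * b k (d k)‖ + Real.log ‖(σ k x : ℂ)‖
  let m : (Fin K → Fin R → Bool) → Fin K → ℕ := fun δ' k =>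
    if δ / 2 ≤ |G k| then ((Set.range fun r : Fin R =>
      cell (Real.log 3) (G k) r (ξ k (row δ' r))).ncard + 1) / 2 else 0
  have hGne : ∀ k, δ / 2 ≤ |G k| → G k ≠ 0 := by
    intro k hk h0
    rw [h0, abs_zero] at hk
    linarith
  have hm : ∀ δ' k, 2 ^ m δ' k *
      Nat.card {x : Fin R → Bool // X (Function.update δ' k x) k = X δ' k} ≤
      Fintype.card (Fin R → Bool) := by
    intro δ' k
    by_cases hk : δ / 2 ≤ |G k|
    · have hu1 : 1 - u k ≠ 0 := by
        intro h
        apply hGne k hk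
        show Real.log ‖u k‖ = 0
        rw [← sub_eq_zero.1 h, norm_one, Real.log_one]
      have hκ : (1 - u k) * b k (d k) ≠ 0 := mul_ne_zero hu1 (hdd k)
      have h7 := fib R (fun r => (1 - u k) * b k (d k) *
        (u k ^ (r : ℕ) * (σ k (row δ' r) : ℂ)))
        (fun r => mul_ne_zero hκ (mul_ne_zero (pow_ne_zero _ (hu0 k)) (Units.ne_zero _)))
        (X δ' k - (1 - u k) * ∑ r : Fin R, u k ^ (r : ℕ) * g k (row δ' r))
      have h8 : (fun r : Fin R => ⌊Real.log ‖(1 - u k) * b k (d k) *
          (u k ^ (r : ℕ) * (σ k (row δ' r) : ℂ))‖ / Real.log 3⌋) =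
          fun r : Fin R => cell (Real.log 3) (G k) r (ξ k (row δ' r)) := by
        funext r
        unfold cell
        congr 2
        rw [norm_mul, norm_mul (u k ^ (r : ℕ)), norm_pow, Real.log_mul (norm_ne_zero_iff.2 hκ)
          (mul_ne_zero (pow_ne_zero _ (norm_ne_zero_iff.2 (hu0 k)))
            (norm_ne_zero_iff.2 (Units.ne_zero _))),
          Real.log_mul (pow_ne_zero _ (norm_ne_zero_iff.2 (hu0 k)))
            (norm_ne_zero_iff.2 (Units.ne_zero _)), Real.log_pow]
        show _ = (r : ℕ) * Real.log ‖u k‖ +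
          (Real.log ‖(1 - u k) * b k (d k)‖ + Real.log ‖(σ k (row δ' r) : ℂ)‖)
        ring
      rw [h8] at h7
      have h10 : m δ' k = ((Set.range fun r : Fin R =>
          cell (Real.log 3) (G k) r (ξ k (row δ' r))).ncard + 1) / 2 := if_pos hk
      rw [h10]
      have h9 : Nat.card {x : Fin R → Bool // X (Function.update δ' k x) k = X δ' k} =
          Nat.card {x : Fin R → Bool // ∑ r : Fin R, (if x r then (1 - u k) * b k (d k) *
            (u k ^ (r : ℕ) * (σ k (row δ' r) : ℂ)) else 0) =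
            X δ' k - (1 - u k) * ∑ r : Fin R, u k ^ (r : ℕ) * g k (row δ' r)} := by
        refine Nat.card_congr (Equiv.subtypeEquivRight fun x => ?_)
        rw [hupd, eq_sub_iff_add_eq, add_comm]
      rw [h9]
      refine h7.trans (le_of_eq ?_)
      simp
    · have h7 : m δ' k = 0 := if_neg hk
      rw [h7, pow_zero, one_mul, ← Nat.card_eq_fintype_card]
      exact Nat.card_le_card_of_injective _ Subtype.val_injective
  have hE := h1 K (Fin R → Bool) ℂ X m hdep hm
  -- lower bound for the sum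
  have hlow : ∀ k, δ / 2 ≤ |G k| → (R : ℝ) / (2 * L) * 2 ^ (K * R) ≤
      ∑ δ' : Fin K → Fin R → Bool, (m δ' k : ℝ) := by
    intro k hk
    have h7 := sec hl3 (hGne k hk) (Fin K → Bool) (ξ k) R
    have hGL : 2 + Real.log 3 / |G k| ≤ L := by
      have h8 : Real.log 3 / |G k| ≤ Real.log 3 / (δ / 2) :=
        div_le_div_of_nonneg_left hl3.le (by positivity) hk
      have h9 : Real.log 3 / (δ / 2) = 2 * Real.log 3 / δ := by field_simp
      rw [hL]
      linarith
    have hG0 : 0 < |G k| := lt_of_lt_of_le (by positivity) hk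
    have h8 : ∑ δ' : Fin K → Fin R → Bool, ((Set.range fun r : Fin R =>
        cell (Real.log 3) (G k) r (ξ k (row δ' r))).ncard : ℝ) = ∑ x : Fin R → Fin K → Bool,
        ((Set.range fun r : Fin R => cell (Real.log 3) (G k) r (ξ k (x r))).ncard : ℝ) := by
      refine Fintype.sum_equiv (Equiv.piComm fun (_ : Fin K) (_ : Fin R) => Bool) _ _ fun δ' => ?_
      rfl
    have h9 : ∀ δ' : Fin K → Fin R → Bool, ((Set.range fun r : Fin R =>
        cell (Real.log 3) (G k) r (ξ k (row δ' r))).ncard : ℝ) / 2 ≤ (m δ' k : ℝ) := by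
      intro δ'
      have h10 : m δ' k = ((Set.range fun r : Fin R =>
          cell (Real.log 3) (G k) r (ξ k (row δ' r))).ncard + 1) / 2 := if_pos hk
      rw [h10, div_le_iff₀ (by norm_num)]
      have h11 : (Set.range fun r : Fin R =>
          cell (Real.log 3) (G k) r (ξ k (row δ' r))).ncard ≤ ((Set.range fun r : Fin R =>
          cell (Real.log 3) (G k) r (ξ k (row δ' r))).ncard + 1) / 2 * 2 := by omega
      exact_mod_cast h11
    refine le_trans ?_ (Finset.sum_le_sum fun δ' _ => h9 δ')
    rw [← Finset.sum_div, h8]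
    have h12 : (R : ℝ) / L * 2 ^ (K * R) ≤ ∑ x : Fin R → Fin K → Bool,
        ((Set.range fun r : Fin R => cell (Real.log 3) (G k) r (ξ k (x r))).ncard : ℝ) := by
      refine le_trans ?_ h7
      rw [Fintype.card_fun, Fintype.card_bool, Fintype.card_fin]
      push_cast
      rw [pow_mul]
      apply mul_le_mul_of_nonneg_right _ (by positivity)
      exact div_le_div_of_nonneg_left (by positivity) (by positivity) hGL
    have h13 : (R : ℝ) / (2 * L) * 2 ^ (K * R) = (R : ℝ) / L * 2 ^ (K * R) / 2 := by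
      field_simp
    rw [h13]
    linarith
  have hgood : (K : ℝ) / 2 ≤ ((Finset.univ.filter fun k => δ / 2 ≤ |G k|).card : ℝ) := by
    have h7 : (Finset.univ.filter fun k : Fin K => δ / 2 ≤ |(lg (χ k) (AA c ε)).toAdd|) =
        Finset.univ.filter fun k => δ / 2 ≤ |G k| := rfl
    have hε' : K ≤ 2 * (Finset.univ.filter fun k => δ / 2 ≤ |G k|).card := hε
    have : (K : ℝ) ≤ 2 * ((Finset.univ.filter fun k => δ / 2 ≤ |G k|).card : ℝ) := by
      exact_mod_cast hε'
    linarith
  have hsum : (K : ℝ) / 2 * ((R : ℝ) / (2 * L) * 2 ^ (K * R)) ≤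
      ∑ δ' : Fin K → Fin R → Bool, ∑ k, (m δ' k : ℝ) := by
    rw [Finset.sum_comm]
    calc (K : ℝ) / 2 * ((R : ℝ) / (2 * L) * 2 ^ (K * R))
        ≤ ((Finset.univ.filter fun k => δ / 2 ≤ |G k|).card : ℝ) *
          ((R : ℝ) / (2 * L) * 2 ^ (K * R)) :=
          mul_le_mul_of_nonneg_right hgood (by positivity)
      _ = ∑ k ∈ Finset.univ.filter (fun k => δ / 2 ≤ |G k|),
            (R : ℝ) / (2 * L) * 2 ^ (K * R) := by
          rw [Finset.sum_const, nsmul_eq_mul]
      _ ≤ ∑ k ∈ Finset.univ.filter (fun k => δ / 2 ≤ |G k|),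
            ∑ δ' : Fin K → Fin R → Bool, (m δ' k : ℝ) :=
          Finset.sum_le_sum fun k hk => hlow k (Finset.mem_filter.1 hk).2
      _ ≤ _ := Finset.sum_le_sum_of_subset_of_nonneg (Finset.filter_subset _ _)
            fun k _ _ => Finset.sum_nonneg fun δ _ => Nat.cast_nonneg _
  set N : ℕ := Nat.card (Set.range X) with hN
  have hNpos : 0 < N := by
    rw [hN, Nat.card_coe_set_eq]
    exact (Set.ncard_pos (Set.finite_range X)).2 (Set.range_nonempty X)
  have hlog : Real.log 2 * (K * R) / (4 * L) ≤ Real.log N := by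
    have hB : ((Fintype.card (Fin R → Bool) : ℕ) : ℝ) ^ K = 2 ^ (K * R) := by
      rw [Fintype.card_fun, Fintype.card_bool, Fintype.card_fin]
      push_cast
      rw [← pow_mul, mul_comm]
    rw [hB] at hE
    have h7 := (mul_le_mul_of_nonneg_left hsum (Real.log_nonneg (by norm_num : (1 : ℝ) ≤ 2))).trans
      hE
    have hp : (0 : ℝ) < 2 ^ (K * R) := by positivity
    have h8 : (2 : ℝ) ^ (K * R) * (Real.log 2 * (K * R) / (4 * L)) ≤
        2 ^ (K * R) * Real.log N := by
      refine le_trans (le_of_eq ?_) h7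
      field_simp
      ring
    exact le_of_mul_le_mul_left h8 hp
  refine hlog.trans ?_
  have hNR : (0 : ℝ) < N := by exact_mod_cast hNpos
  apply Real.log_le_log hNR
  have hsub : Set.range X ⊆ (fun y : M => fun k => b k y) '' Set.range P := by
    rintro _ ⟨δ, rfl⟩
    exact ⟨P (row δ), ⟨row δ, rfl⟩, rfl⟩
  have hPfin : (Set.range P).Finite := Set.finite_range P
  have hfin : N ≤ Nat.card (Set.range P) := by
    rw [hN, Nat.card_coe_set_eq, Nat.card_coe_set_eq]
    exact (Set.ncard_le_ncard hsub (hPfin.image _)).trans (Set.ncard_image_le hPfin)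
  exact_mod_cast hfin

end Pool.Agent.U161.AR
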