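import Mathlib
import Pool.Agent.U161.AR.Cnt
import Pool.Agent.N600.G3.Core

/-!
# Growth from a complex crossed homomorphism on the derived subgroup
-/

set_option autoImplicit false

namespace Pool.Agent.U161.AR

open Pool.Agent.N600.G3
open scoped Pointwise

universe u

theorem entf0 : S_ENTF.{0} :=
  N488.G3.t_entf N787.G3.t_ent2 (N99.G3.t_ent3 N711.G3.t_ent1)

/-- the constant in the exponent -/
noncomputable def LL (δ : ℝ) : ℝ := 2 + 2 * Real.log 3 / δ

theorem tha (G : Type u) [Group G] (T : Set G) (hfin : T.Finite) (h1T : 1 ∈ T)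
    (hinv : T⁻¹ = T) (hgen : Subgroup.closure T = ⊤) (χ : commutator G →* ℂˣ)
    (b : commutator G → ℂ) (hb : Crossed χ b) (c : commutator G) (hc : (c : G) ∈ CT T)
    (hbc : b c = 0) {δ : ℝ} (hδ : 0 < δ) (hvc : δ ≤ |Real.log ‖(χ c : ℂ)‖|)
    (hne : ∃ m, b m ≠ 0) :
    ∃ K > 0, ∀ R : ℕ, Real.log 2 * (K * R) / (4 * LL δ) ≤
      Real.log (Nat.card ↥(T ^ (22 * K * R))) := by
  obtain ⟨K, s, d, hK, hs, hd, hi, hii, hiii⟩ :=
    geo N918.G3.t_geo G T h1T hinv hgen χ b hb c hc hbc hne
  let g : Fin K → G := fun i => (hh s (K - 1 - i))⁻¹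
  let χ' : Fin K → commutator G →* ℂˣ := fun i => χ.comp (cj (g i))
  let b' : Fin K → commutator G → ℂ := fun i m => b (cj (g i) m)
  let c' : Fin K → commutator G := fun j => cj (hh s (K - 1 - j)) c
  let d' : Fin K → commutator G := fun j => cj (hh s (K + (K - 1 - j))) d
  have hb' : ∀ k, Crossed (χ' k) (b' k) := by
    intro k m m'
    show b (cj (g k) (m * m')) = b (cj (g k) m) + (χ (cj (g k) m) : ℂ) * b (cj (g k) m')
    rw [map_mul, hb]
  have e1 : ∀ i j, b' i (c' j) = 0 := by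
    intro i j
    show b (cj (g i) (cj (hh s (K - 1 - j)) c)) = 0
    rw [cj_cj]
    exact hi _ (by omega) _ (by omega)
  have e2 : ∀ i j, i < j → b' i (d' j) = 0 := by
    intro i j hij
    show b (cj (g i) (cj (hh s (K + (K - 1 - j))) d)) = 0
    rw [cj_cj]
    have : (i : ℕ) < j := hij
    exact hii _ _ (by omega) (by omega)
  have e3 : ∀ i, b' i (d' i) ≠ 0 := by
    intro i
    show b (cj (g i) (cj (hh s (K + (K - 1 - i))) d)) ≠ 0
    rw [cj_cj]
    exact hiii _ (by omega)
  have e4 : ∀ i, δ ≤ |Real.log ‖(χ' i (c' i) : ℂ)‖| := by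
    intro i
    show δ ≤ |Real.log ‖(χ (cj (g i) (cj (hh s (K - 1 - i)) c)) : ℂ)‖|
    rw [cj_cj]
    have : g i * hh s (K - 1 - i) = 1 := inv_mul_cancel _
    rw [this, cj_one]
    exact hvc
  obtain ⟨ε, hε⟩ := cnt entf0 N693.G3.t_prd N693.G3.t_tri (commutator G) K χ' b' hb' c' d' e1 e2 e3
    hδ e4
  obtain ⟨hL1, hL2⟩ := N454.G3.t_len G T h1T hinv s hs c d hc hd K hK
  refine ⟨K, hK, fun R => (hε R).trans ?_⟩
  have hmem : ∀ δ : Fin R → Fin K → Bool,
      ((((List.ofFn fun r => AA d' (δ r) * AA c' ε * (AA d' (δ r))⁻¹).prod :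
        commutator G)) : G) ∈ T ^ (22 * K * R) := by
    intro δ
    have h5 : ((((List.ofFn fun r => AA d' (δ r) * AA c' ε * (AA d' (δ r))⁻¹).prod :
        commutator G)) : G) = (List.ofFn fun r => (((AA d' (δ r) * AA c' ε * (AA d' (δ r))⁻¹ :
          commutator G)) : G)).prod := by
      have := map_list_prod (commutator G).subtype
        (List.ofFn fun r => AA d' (δ r) * AA c' ε * (AA d' (δ r))⁻¹)
      rw [List.map_ofFn] at this
      exact this
    rw [h5]
    apply prod_mem_pow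
    intro r
    have h6 : ((AA d' (δ r) : commutator G) : G) ∈ T ^ (8 * K) := by
      have := AA_map (commutator G).subtype d' (δ r)
      show (commutator G).subtype _ ∈ _
      rw [this]
      exact hL2 (δ r)
    have h7 : ((AA c' ε : commutator G) : G) ∈ T ^ (6 * K) := by
      have := AA_map (commutator G).subtype c' ε
      show (commutator G).subtype _ ∈ _
      rw [this]
      exact hL1 ε
    have h8 : T ^ (22 * K) = T ^ (8 * K) * T ^ (6 * K) * T ^ (8 * K) := by
      rw [← pow_add, ← pow_add]; congr 1; omega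
    rw [h8]
    exact Set.mul_mem_mul (Set.mul_mem_mul h6 h7) (inv_mem_pow hinv h6)
  have hfinT : Finite ↥(T ^ (22 * K * R)) := by
    exact (finite_pow hfin _).to_subtype
  have hle : Nat.card (Set.range fun δ : Fin R → Fin K → Bool =>
      (List.ofFn fun r => AA d' (δ r) * AA c' ε * (AA d' (δ r))⁻¹).prod) ≤
      Nat.card ↥(T ^ (22 * K * R)) := by
    refine Nat.card_le_card_of_injective
      (fun x : Set.range _ => (⟨((x : commutator G) : G), ?_⟩ : ↥(T ^ (22 * K * R)))) ?_
    · obtain ⟨_, δ, rfl⟩ := x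
      exact hmem δ
    · intro x y hxy
      have h9 := congrArg (fun z : ↥(T ^ (22 * K * R)) => (z : G)) hxy
      exact Subtype.ext (Subtype.ext h9)
  have hpos : 0 < Nat.card (Set.range fun δ : Fin R → Fin K → Bool =>
      (List.ofFn fun r => AA d' (δ r) * AA c' ε * (AA d' (δ r))⁻¹).prod) := by
    rw [Nat.card_coe_set_eq]
    exact (Set.ncard_pos (Set.finite_range _)).2 (Set.range_nonempty _)
  exact Real.log_le_log (by exact_mod_cast hpos) (by exact_mod_cast hle)

/-- the growth rate -/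
theorem rho_of_tha {G : Type u} [Group G] (T : Set G) (hfin : T.Finite) (h1T : 1 ∈ T) {δ : ℝ}
    (hδ : 0 < δ) (h : ∃ K > 0, ∀ R : ℕ, Real.log 2 * (K * R) / (4 * LL δ) ≤
      Real.log (Nat.card ↥(T ^ (22 * K * R)))) :
    Real.log 2 / (88 * LL δ) ≤ H746UG.rho T := by
  obtain ⟨K, hK, h⟩ := h
  have hl3 : 0 < Real.log 3 := Real.log_pos (by norm_num)
  have hL : 0 < LL δ := by unfold LL; positivity
  refine ge_of_tendsto (H746UG.tendsto_rho T) ?_
  filter_upwards [Filter.eventually_gt_atTop 0] with n hn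
  have h1 := h n
  have h2 : Nat.card ↥(T ^ (22 * K * n)) ≤ (Nat.card ↥(T ^ n)) ^ (22 * K) :=
    card_pow_mul_le T n _
  have h3 := one_le_card hfin h1T n
  have h4 := one_le_card hfin h1T (22 * K * n)
  have h5 : Real.log (Nat.card ↥(T ^ (22 * K * n))) ≤ (22 * K) * Real.log (Nat.card ↥(T ^ n)) := by
    have h6 : Real.log (Nat.card ↥(T ^ (22 * K * n))) ≤
        Real.log ((Nat.card ↥(T ^ n) : ℝ) ^ (22 * K)) := by
      apply Real.log_le_log (by exact_mod_cast h4)
      exact_mod_cast h2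
    rw [Real.log_pow] at h6
    push_cast at h6
    exact h6
  have h6 := h1.trans h5
  have hK' : (0 : ℝ) < K := by exact_mod_cast hK
  have hn' : (0 : ℝ) < n := by exact_mod_cast hn
  rw [div_le_iff₀ (by positivity)] at h6
  rw [div_le_div_iff₀ (by positivity) hn']
  have h7 : K * (Real.log 2 * n) ≤ K * (Real.log (Nat.card ↥(T ^ n)) * (88 * LL δ)) := by
    calc K * (Real.log 2 * n) = Real.log 2 * (K * n) := by ring
      _ ≤ _ := h6
      _ = _ := by ring
  exact le_of_mul_le_mul_left h7 hK'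

end Pool.Agent.U161.AR
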