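import Pool.Agent.U161.AR.Vn

/-!
# The dichotomy for derived length three
-/

set_option autoImplicit false

namespace Pool.Agent.U161.AR

open Pool.Agent.N600.G3 Subgroup Polynomial
open scoped TensorProduct commutatorElement Pointwise
open Pool.Agent.TH53.UG (act)

universe u

/-- a metabelian group whose elements act on the derived subgroup with roots of unity as
eigenvalues is virtually nilpotent -/
theorem vn_of_roots {M : Type u} [Group M] [hM : Group.FG M]
    (hab : ∀ x ∈ commutator M, ∀ y ∈ commutator M, x * y = y * x) (hfg : (commutator M).FG)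
    (h : ∀ (m : M) (z : ℂ) (ψ : Additive (commutator M) →+ ℂ), (∃ x, ψ x ≠ 0) →
      (∀ x : commutator M, ψ (Additive.ofMul (MulAut.conjNormal m x)) = z * ψ (Additive.ofMul x)) →
      ∃ n > 0, z ^ n = 1) : Group.IsVirtuallyNilpotent M := by
  have hcomm : IsMulCommutative (commutator M) :=
    ⟨⟨fun a b => Subtype.ext (hab a a.2 b b.2)⟩⟩
  have hQ : ∀ g h : M, g * h * g⁻¹ * h⁻¹ ∈ commutator M := fun g h =>
    commutator_mem_commutator (mem_top g) (mem_top h)
  obtain ⟨S, hS⟩ := hM.out
  have hAfg2 : Group.FG (commutator M) := (Group.fg_iff_subgroup_fg _).2 hfg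
  open scoped IsMulCommutative in
  have hMfin : Module.Finite ℤ (Additive (commutator M)) := by
    rw [Module.Finite.iff_addGroup_fg]
    infer_instance
  open scoped IsMulCommutative in
  refine H746UG.vn_of_VU (commutator M) hQ (S : Set M) S.finite_toSet hS ?_
  intro g
  have hinj : Function.Injective (H746UG.th (commutator M) g) := by
    intro a b hab
    have h1 : ∀ a, H746UG.th (commutator M) g⁻¹ (H746UG.th (commutator M) g a) = a := by
      intro a
      rw [← Module.End.mul_apply, ← map_mul, inv_mul_cancel, map_one, Module.End.one_apply]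
    rw [← h1 a, hab, h1 b]
  obtain ⟨m, hm, k, hk⟩ := vunip (H746UG.th (commutator M) g) hinj (by
    intro z ψ hψ0 hψ
    refine h g z ψ.toAddMonoidHom ?_ (fun x => hψ (Additive.ofMul x))
    by_contra hcon
    push Not at hcon
    exact hψ0 (LinearMap.ext hcon))
  refine ⟨m, hm, k, fun a => ?_⟩
  rw [Submodule.mem_bot]
  have h2 : ∀ n : ℕ, ∀ a : Additive (commutator M),
      (H746UG.qg (commutator M) hQ g ^ n) • a = (H746UG.th (commutator M) g ^ n) a := by
    intro n
    induction n with
    | zero => intro a; rw [pow_zero, pow_zero, one_smul, Module.End.one_apply]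
    | succ n ih =>
      intro a
      rw [pow_succ, pow_succ, mul_smul, H746UG.qg_smul, ih, Module.End.mul_apply]
  have h3 : ∀ j : ℕ, ∀ a : Additive (commutator M),
      ((H746UG.qg (commutator M) hQ g ^ m - 1) ^ j) • a =
        ((H746UG.th (commutator M) g ^ m - 1) ^ j : Module.End ℤ _) a := by
    intro j
    induction j with
    | zero => intro a; rw [pow_zero, pow_zero, one_smul, Module.End.one_apply]
    | succ j ih =>
      intro a
      rw [pow_succ, pow_succ, mul_smul, sub_smul, one_smul, h2, ih, Module.End.mul_apply]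
      rfl
  rw [h3]
  exact hk a

/-- functionals on the second derived subgroup of a quotient -/
lemma ef_of_quot {H Q : Type u} [Group H] [Group Q] (π : H →* Q) (hπ : Function.Surjective π)
    (N : Subgroup H) [N.Normal] (hNe : N = ⁅commutator H, commutator H⁆) (t : H)
    (m : commutator Q) (htm : π t = m) (z : ℂ)
    (ψ : Additive (commutator (commutator Q)) →+ ℂ) (hψ0 : ∃ x, ψ x ≠ 0)
    (hψ : ∀ x : commutator (commutator Q),
      ψ (Additive.ofMul (MulAut.conjNormal m x)) = z * ψ (Additive.ofMul x)) :
    EF N t z := by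
  have hc : commutator Q = (commutator H).map π := by
    rw [_root_.commutator_def, _root_.commutator_def, map_commutator,
      map_top_of_surjective π hπ]
  have hcc : (commutator (commutator Q)).map (commutator Q).subtype = N.map π := by
    rw [Subgroup.map_subtype_commutator, hNe, map_commutator, ← hc]
  have h1 : ∀ x : N, π x ∈ commutator Q := by
    intro x
    rw [hc]
    refine mem_map_of_mem _ ?_
    have h0 : N ≤ commutator H := by
      rw [hNe]
      exact commutator_le_left _ _
    exact h0 x.2
  let F1 : N →* commutator Q := (π.comp N.subtype).codRestrict (commutator Q) h1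
  have h2 : ∀ x : N, F1 x ∈ commutator (commutator Q) := by
    intro x
    have h3 : π x ∈ (commutator (commutator Q)).map (commutator Q).subtype := by
      rw [hcc]
      exact mem_map_of_mem _ x.2
    obtain ⟨y, hy, hye⟩ := h3
    have : F1 x = y := Subtype.ext hye.symm
    rw [this]
    exact hy
  let F : N →* commutator (commutator Q) := F1.codRestrict _ h2
  have hFs : Function.Surjective F := by
    rintro ⟨y, hy⟩
    have h3 : (y : Q) ∈ N.map π := by
      rw [← hcc]
      exact mem_map_of_mem _ hy
    obtain ⟨x, hx, hxe⟩ := h3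
    exact ⟨⟨x, hx⟩, Subtype.ext (Subtype.ext hxe)⟩
  let θ : N →* Multiplicative ℂ := MonoidHom.mk'
    (fun x => Multiplicative.ofAdd (ψ (Additive.ofMul (F x)))) (fun x y => by
      rw [map_mul, ofMul_mul, map_add, ofAdd_add])
  let φ0 : Abelianization N →* Multiplicative ℂ := Abelianization.lift θ
  let φ : DD N := AddMonoidHom.toIntLinearMap (AddMonoidHom.mk'
    (fun a => Multiplicative.toAdd (φ0 (Additive.toMul a))) (fun a b => by
      rw [toMul_add, map_mul, toAdd_mul]))
  have hφ : ∀ x : N, φ (cls N x) = ψ (Additive.ofMul (F x)) := by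
    intro x
    rfl
  refine ⟨φ, ?_, ?_⟩
  · intro h0
    obtain ⟨y, hy⟩ := hψ0
    obtain ⟨x, hx⟩ := hFs (Additive.toMul y)
    apply hy
    have h3 := hφ x
    rw [h0, LinearMap.zero_apply, hx] at h3
    exact h3.symm
  · intro a
    obtain ⟨x, rfl⟩ := cls_surj N a
    rw [act_cls, hφ, hφ, ← hψ]
    congr 2
    apply Subtype.ext
    apply Subtype.ext
    show π (t * x * t⁻¹) = m * π x * (m : Q)⁻¹
    rw [map_mul, map_mul, map_inv, htm]

end Pool.Agent.U161.AR
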