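import Pool.Agent.U161.AR.Core
import Pool.Agent.H746UG.VN

/-!
# Virtually unipotent actions
-/

set_option autoImplicit false

namespace Pool.Agent.U161.AR

open Pool.Agent.N600.G3 Subgroup Polynomial
open scoped TensorProduct commutatorElement Pointwise

universe u

section lin

variable {B : Type u} [AddCommGroup B] [Module.Finite ℤ B]

/-- elements killed by all complex functionals are torsion -/
lemma tors_of_kill {b : B} (h : ∀ ψ : B →ₗ[ℤ] ℂ, ψ b = 0) : b ∈ Submodule.torsion ℤ B := by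
  have h1 : Module.Free ℤ (B ⧸ Submodule.torsion ℤ B) := inferInstance
  let bs := Module.Free.chooseBasis ℤ (B ⧸ Submodule.torsion ℤ B)
  rw [← Submodule.Quotient.mk_eq_zero]
  apply bs.ext_elem
  intro i
  rw [map_zero, Finsupp.zero_apply]
  have h2 := h ((Int.castAddHom ℂ).toIntLinearMap.comp
    ((bs.coord i).comp (Submodule.mkQ (Submodule.torsion ℤ B))))
  have h3 : ((bs.repr (Submodule.Quotient.mk b) i : ℤ) : ℂ) = 0 := h2
  exact_mod_cast h3

/-- the space of functionals -/
lemma finD : FiniteDimensional ℂ (B →ₗ[ℤ] ℂ) := by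
  obtain ⟨n, f, hf⟩ := Module.Finite.exists_fin' ℤ B
  let ev : (B →ₗ[ℤ] ℂ) →ₗ[ℂ] (Fin n → ℂ) :=
    { toFun := fun φ i => φ (f (Pi.single i 1))
      map_add' := fun _ _ => rfl
      map_smul' := fun _ _ => rfl }
  refine FiniteDimensional.of_injective ev ?_
  intro φ ψ h
  have h1 : φ.comp f = ψ.comp f := by
    apply LinearMap.pi_ext'
    intro i
    apply LinearMap.ext_ring
    exact congrFun h i
  apply LinearMap.ext
  intro a
  obtain ⟨b, rfl⟩ := hf a
  exact LinearMap.congr_fun h1 b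

/-- precomposition -/
noncomputable def pc (g : Module.End ℤ B) : Module.End ℂ (B →ₗ[ℤ] ℂ) where
  toFun φ := φ.comp g
  map_add' _ _ := rfl
  map_smul' _ _ := rfl

lemma pc_pow (g : Module.End ℤ B) (n : ℕ) (φ : B →ₗ[ℤ] ℂ) (a : B) :
    ((pc g ^ n) φ) a = φ ((g ^ n) a) := by
  induction n generalizing φ a with
  | zero => simp
  | succ n ih =>
    rw [pow_succ, Module.End.mul_apply, ih, pow_succ', Module.End.mul_apply]
    rfl

lemma pc_sub_pow (g : Module.End ℤ B) (n : ℕ) (φ : B →ₗ[ℤ] ℂ) (a : B) :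
    (((pc g - 1) ^ n) φ) a = φ (((g - 1) ^ n) a) := by
  have : pc g - 1 = pc (g - 1) := by
    apply LinearMap.ext
    intro φ
    apply LinearMap.ext
    intro a
    show φ (g a) - φ a = φ (g a - a)
    rw [map_sub]
  rw [this, pc_pow]

/-- an operator whose eigenvalues are roots of unity -/
lemma unip {V : Type*} [AddCommGroup V] [Module ℂ V] [FiniteDimensional ℂ V]
    (T : Module.End ℂ V) (h : ∀ z : ℂ, T.HasEigenvalue z → ∃ n > 0, z ^ n = 1) :
    ∃ m > 0, ∃ k, (T ^ m - 1) ^ k = 0 := by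
  classical
  have h1 : ∀ z ∈ T.charpoly.roots, ∃ n > 0, z ^ n = 1 := by
    intro z hz
    apply h
    rw [Module.End.hasEigenvalue_iff_isRoot_charpoly]
    exact (mem_roots'.1 hz).2
  have h1' : ∀ z : ℂ, ∃ n > 0, z ∈ T.charpoly.roots → z ^ n = 1 := by
    intro z
    by_cases hz : z ∈ T.charpoly.roots
    · obtain ⟨n, hn, h2⟩ := h1 z hz
      exact ⟨n, hn, fun _ => h2⟩
    · exact ⟨1, one_pos, fun h => absurd h hz⟩
  choose f hf0 hf using h1'
  set m := ∏ z ∈ T.charpoly.roots.toFinset, f z with hm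
  have hm0 : 0 < m := Finset.prod_pos fun z _ => hf0 z
  have hzm : ∀ z ∈ T.charpoly.roots, z ^ m = 1 := by
    intro z hz
    obtain ⟨c, hc⟩ : f z ∣ m := Finset.dvd_prod_of_mem _ (Multiset.mem_toFinset.2 hz)
    rw [hc, pow_mul, hf z hz, one_pow]
  have hsplit : T.charpoly = (T.charpoly.roots.map fun z => X - C z).prod := by
    have h2 := (IsAlgClosed.splits T.charpoly).eq_prod_roots
    rw [h2, T.charpoly_monic.leadingCoeff, map_one, one_mul]
    simp
  have hdvd : T.charpoly ∣ (X ^ m - 1) ^ (Multiset.card T.charpoly.roots) := by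
    rw [hsplit]
    have h3 : ∀ s : Multiset ℂ, (∀ z ∈ s, z ^ m = 1) →
        (s.map fun z => X - C z).prod ∣ ((X : ℂ[X]) ^ m - 1) ^ (Multiset.card s) := by
      intro s
      induction s using Multiset.induction_on with
      | empty => intro _; simp
      | cons a s ih =>
        intro hs
        rw [Multiset.map_cons, Multiset.prod_cons, Multiset.card_cons, pow_succ']
        refine mul_dvd_mul ?_ (ih fun z hz => hs z (Multiset.mem_cons_of_mem hz))
        rw [dvd_iff_isRoot, IsRoot.def, eval_sub, eval_pow, eval_X, eval_one,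
          hs a (Multiset.mem_cons_self a s), sub_self]
    have h4 := h3 T.charpoly.roots hzm
    rw [← hsplit]
    rw [← hsplit] at h4
    exact h4
  refine ⟨m, hm0, Multiset.card T.charpoly.roots, ?_⟩
  obtain ⟨q, hq⟩ := hdvd
  have h5 := congrArg (aeval T) hq
  rw [map_mul, LinearMap.aeval_self_charpoly, zero_mul, map_pow, map_sub, map_pow, aeval_X,
    map_one] at h5
  exact h5

/-- an automorphism of a finitely generated abelian group all of whose eigenvalues are roots of
unity is virtually unipotent -/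
theorem vunip (g : Module.End ℤ B) (hinj : Function.Injective g)
    (h : ∀ (z : ℂ) (ψ : B →ₗ[ℤ] ℂ), ψ ≠ 0 → (∀ b, ψ (g b) = z * ψ b) → ∃ n > 0, z ^ n = 1) :
    ∃ m > 0, ∃ k : ℕ, ∀ b : B, (((g ^ m - 1) ^ k : Module.End ℤ B)) b = 0 := by
  have := finD (B := B)
  obtain ⟨m, hm, k, hk⟩ := unip (pc g) (by
    intro z hz
    obtain ⟨ψ, hψ⟩ := hz.exists_hasEigenvector
    exact h z ψ hψ.2 (fun b => LinearMap.congr_fun hψ.apply_eq_smul b))
  have hpc : pc g ^ m = pc (g ^ m) := by
    apply LinearMap.ext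
    intro φ
    apply LinearMap.ext
    intro a
    rw [pc_pow]
    rfl
  have h1 : ∀ b, ((g ^ m - 1) ^ k) b ∈ Submodule.torsion ℤ B := by
    intro b
    apply tors_of_kill
    intro ψ
    rw [← pc_sub_pow, ← hpc, hk]
    rfl
  -- the torsion part
  set F := Submodule.torsion ℤ B with hF
  have hFt : Module.IsTorsion ℤ F := Submodule.torsion_isTorsion
  have hFfin : Finite F := Module.finite_of_fg_torsion F hFt
  have hgF : ∀ x ∈ F, g x ∈ F := by
    intro x hx
    rw [hF, Submodule.mem_torsion_iff] at hx ⊢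
    obtain ⟨a, ha⟩ := hx
    exact ⟨a, by
      show (a : ℤ) • g x = 0
      rw [← map_smul]
      have : (a : ℤ) • x = 0 := ha
      rw [this, map_zero]⟩
  let σ : F → F := fun x => ⟨g x, hgF x x.2⟩
  have hσ : Function.Injective σ := by
    intro x y hxy
    exact Subtype.ext (hinj (congrArg (fun z : F => (z : B)) hxy))
  let τ : Equiv.Perm F := Equiv.ofBijective σ ((Finite.injective_iff_bijective).1 hσ)
  obtain ⟨r, hr, hτ⟩ := isOfFinOrder_iff_pow_eq_one.1 (isOfFinOrder_of_finite τ)
  have hτn : ∀ n : ℕ, ∀ x : F, (((τ ^ n) x : F) : B) = (g ^ n) (x : B) := by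
    intro n
    induction n with
    | zero => intro x; simp
    | succ n ih =>
      intro x
      rw [pow_succ', Equiv.Perm.mul_apply, pow_succ', Module.End.mul_apply, ← ih]
      rfl
  have hgr : ∀ n : ℕ, ∀ x ∈ F, (g ^ (r * n)) x = x := by
    intro n x hx
    rw [← hτn (r * n) ⟨x, hx⟩, pow_mul, hτ, one_pow]
    rfl
  refine ⟨m * r, Nat.mul_pos hm hr, 1 + k, fun b => ?_⟩
  -- `g ^ (m r) - 1` is a multiple of `g ^ m - 1`
  have h2 : ∃ q : Module.End ℤ B, g ^ (m * r) - 1 = q * (g ^ m - 1) ∧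
      Commute q (g ^ m - 1) := by
    refine ⟨∑ i ∈ Finset.range r, (g ^ m) ^ i, ?_, ?_⟩
    · rw [pow_mul, geom_sum_mul]
    · refine Commute.sum_left _ _ _ fun i _ => ?_
      exact (Commute.pow_self (g ^ m) i).sub_right (Commute.one_right _)
  obtain ⟨q, hq, hqc⟩ := h2
  rw [pow_add, pow_one, Module.End.mul_apply]
  have h3 : ((g ^ (m * r) - 1) ^ k) b ∈ F := by
    rw [hq, hqc.mul_pow, (hqc.pow_pow k k).eq, Module.End.mul_apply]
    exact h1 _
  rw [LinearMap.sub_apply, Module.End.one_apply, mul_comm m r, hgr m _ (by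
    rw [mul_comm r m]; exact h3), sub_self]

end lin

end Pool.Agent.U161.AR
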