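import Mathlib
import Pool.Agent.TH53.UG4
import Pool.Agent.U161.AR.Tha

/-!
# Weights of the derived subgroup on the abelianization of the second derived subgroup
-/

set_option autoImplicit false

namespace Pool.Agent.U161.AR

open Pool.Agent.N600.G3 Subgroup Polynomial
open scoped TensorProduct commutatorElement
open Pool.Agent.TH53.UG (act act_of aeval_comm integral_of_root eig_of_root)

universe u

/-- common eigenvectors of commuting endomorphisms -/
theorem common {ι V : Type*} [AddCommGroup V] [Module ℂ V] [FiniteDimensional ℂ V]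
    (T : ι → Module.End ℂ V) (hT : ∀ i j v, T i (T j v) = T j (T i v)) (W : Submodule ℂ V)
    (hW : W ≠ ⊥) (hinv : ∀ i, ∀ v ∈ W, T i v ∈ W) :
    ∃ u ∈ W, u ≠ 0 ∧ ∀ i, ∃ μ : ℂ, T i u = μ • u := by
  classical
  let P : ℕ → Prop := fun n => ∃ X : Submodule ℂ V, X ≤ W ∧ X ≠ ⊥ ∧
    (∀ i, ∀ v ∈ X, T i v ∈ X) ∧ Module.finrank ℂ X = n
  have hex : ∃ n, P n := ⟨_, W, le_rfl, hW, hinv, rfl⟩
  obtain ⟨X, hXW, hX, hXi, hXn⟩ := Nat.find_spec hex
  have hmin : ∀ m, m < Nat.find hex → ¬ P m := fun m hm => Nat.find_min hex hm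
  obtain ⟨u, hu, hu0⟩ := Submodule.exists_mem_ne_zero_of_ne_bot hX
  refine ⟨u, hXW hu, hu0, fun i => ?_⟩
  have : Nontrivial X := (Submodule.nontrivial_iff_ne_bot).2 hX
  obtain ⟨μ, hμ⟩ := Module.End.exists_eigenvalue ((T i).restrict (hXi i))
  obtain ⟨v, hv⟩ := hμ.exists_hasEigenvector
  have hv1 : T i (v : V) = μ • (v : V) := by
    have := hv.apply_eq_smul
    exact congrArg (fun x : X => (x : V)) this
  have hv0 : (v : V) ≠ 0 := fun h => hv.2 (Subtype.ext h)
  let Y : Submodule ℂ V :=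
    { carrier := {x | x ∈ X ∧ T i x = μ • x}
      add_mem' := by
        rintro a b ⟨ha, ha'⟩ ⟨hb, hb'⟩
        exact ⟨X.add_mem ha hb, by rw [map_add, ha', hb', smul_add]⟩
      zero_mem' := ⟨X.zero_mem, by rw [map_zero, smul_zero]⟩
      smul_mem' := by
        rintro r a ⟨ha, ha'⟩
        exact ⟨X.smul_mem r ha, by rw [map_smul, ha', smul_comm]⟩ }
  have hYX : Y ≤ X := fun x hx => hx.1
  have hY : Y ≠ ⊥ := by
    intro h
    have : (v : V) ∈ Y := ⟨v.2, hv1⟩
    rw [h, Submodule.mem_bot] at this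
    exact hv0 this
  have hYi : ∀ j, ∀ x ∈ Y, T j x ∈ Y := by
    rintro j x ⟨hx, hx'⟩
    exact ⟨hXi j x hx, by rw [hT, hx', map_smul]⟩
  have hYe : Y = X := by
    by_contra hne
    have hlt : Module.finrank ℂ Y < Module.finrank ℂ X :=
      Submodule.finrank_lt_finrank_of_lt (lt_of_le_of_ne hYX hne)
    rw [hXn] at hlt
    exact hmin _ hlt ⟨Y, hYX.trans hXW, hY, hYi, rfl⟩
  have : u ∈ Y := by rw [hYe]; exact hu
  exact ⟨μ, this.2⟩

variable {G : Type u} [Group G] (N : Subgroup G) [N.Normal]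

/-- the abelianization of `N`, written additively -/
abbrev AbN : Type u := Additive (Abelianization N)

/-- homomorphisms from `N` to `ℂ` -/
abbrev DD : Type u := AbN N →ₗ[ℤ] ℂ

/-- the class of an element -/
def cls (x : N) : AbN N := Additive.ofMul (Abelianization.of x)

lemma cls_mul (x y : N) : cls N (x * y) = cls N x + cls N y := rfl

lemma cls_one : cls N 1 = 0 := rfl

lemma cls_inv (x : N) : cls N x⁻¹ = - cls N x := rfl

lemma cls_surj (a : AbN N) : ∃ x : N, cls N x = a := by
  obtain ⟨x, hx⟩ := QuotientGroup.mk_surjective (Additive.toMul a)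
  exact ⟨x, by
    apply Additive.toMul.injective
    exact hx⟩

lemma act_cls (t : G) (x : N) : act N t (cls N x) = cls N (MulAut.conjNormal t x) := act_of N t x

lemma act_mul (s t : G) (a : AbN N) : act N (s * t) a = act N s (act N t a) := by
  obtain ⟨x, rfl⟩ := cls_surj N a
  rw [act_cls, act_cls, act_cls, map_mul]
  rfl

lemma act_one (a : AbN N) : act N 1 a = a := by
  obtain ⟨x, rfl⟩ := cls_surj N a
  rw [act_cls, map_one]
  rfl

lemma act_mem (x : N) (a : AbN N) : act N (x : G) a = a := by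
  obtain ⟨y, rfl⟩ := cls_surj N a
  rw [act_cls]
  have : MulAut.conjNormal (x : G) y = x * y * x⁻¹ := by
    apply Subtype.ext
    rw [MulAut.conjNormal_apply]
    rfl
  rw [this, cls_mul, cls_mul, cls_inv]
  abel

/-- precomposition with conjugation -/
noncomputable def op (t : G) : Module.End ℂ (DD N) where
  toFun φ := φ.comp (act N t)
  map_add' φ ψ := rfl
  map_smul' c φ := rfl

lemma op_apply (t : G) (φ : DD N) (a : AbN N) : op N t φ a = φ (act N t a) := rfl

lemma op_mul (s t : G) (φ : DD N) : op N (s * t) φ = op N t (op N s φ) := by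
  apply LinearMap.ext
  intro a
  rw [op_apply, op_apply, op_apply, act_mul]

lemma op_one (φ : DD N) : op N 1 φ = φ := by
  apply LinearMap.ext
  intro a
  rw [op_apply, act_one]

lemma op_comm (hN : ∀ s ∈ commutator G, ∀ t ∈ commutator G, s * t * s⁻¹ * t⁻¹ ∈ N)
    (s t : commutator G) (φ : DD N) : op N (s : G) (op N (t : G) φ) = op N t (op N s φ) := by
  rw [← op_mul, ← op_mul]
  apply LinearMap.ext
  intro a
  rw [op_apply, op_apply]
  obtain ⟨s, hs⟩ := s
  obtain ⟨t, ht⟩ := t
  show φ (act N (t * s) a) = φ (act N (s * t) a)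
  have e : s * t = (s * t * s⁻¹ * t⁻¹) * (t * s) := by group
  have h1 : act N (s * t * s⁻¹ * t⁻¹) (act N (t * s) a) = act N (t * s) a :=
    act_mem N ⟨_, hN s hs t ht⟩ (act N (t * s) a)
  rw [e, act_mul N (s * t * s⁻¹ * t⁻¹ : G) (t * s), h1]

/-- finiteness of the space of homomorphisms -/
lemma finDD [Module.Finite ℤ (AbN N)] : FiniteDimensional ℂ (DD N) := by
  obtain ⟨n, f, hf⟩ := Module.Finite.exists_fin' ℤ (AbN N)
  let ev : DD N →ₗ[ℂ] (Fin n → ℂ) :=
    { toFun := fun φ i => φ (f (Pi.single i 1))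
      map_add' := fun φ ψ => rfl
      map_smul' := fun c φ => rfl }
  refine FiniteDimensional.of_injective ev ?_
  intro φ ψ h
  have h1 : φ.comp f = ψ.comp f := by
    apply LinearMap.pi_ext'
    intro i
    apply LinearMap.ext_ring
    exact congrFun h i
  apply LinearMap.ext
  intro a
  obtain ⟨b, rfl⟩ := hf a
  exact LinearMap.congr_fun h1 b

/-- `z` is an eigenvalue of the conjugation by `t` on the homomorphisms -/
def EF (t : G) (z : ℂ) : Prop := ∃ φ : DD N, φ ≠ 0 ∧ ∀ a, φ (act N t a) = z * φ a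

lemma ef_of_eig [Module.Finite ℤ (AbN N)] {t : G} {z : ℂ}
    (h : Module.End.HasEigenvalue (LinearMap.baseChange ℂ (act N t) :
      Module.End ℂ (ℂ ⊗[ℤ] AbN N)) z) : EF N t z := by
  set g : Module.End ℂ (ℂ ⊗[ℤ] AbN N) := LinearMap.baseChange ℂ (act N t) with hg
  set k : Module.End ℂ (ℂ ⊗[ℤ] AbN N) := g - z • (1 : Module.End ℂ (ℂ ⊗[ℤ] AbN N)) with hk
  have hkv : ∀ v, k v = g v - z • v := fun v => rfl
  have h1 : ¬ Function.Injective k := by
    intro hinj
    obtain ⟨v, hv⟩ := h.exists_hasEigenvector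
    apply hv.2
    apply hinj
    rw [map_zero, hkv, hv.apply_eq_smul, sub_self]
  have h2 : ¬ Function.Surjective k := fun hs =>
    h1 ((LinearMap.injective_iff_surjective).2 hs)
  have h3 : LinearMap.range k < ⊤ := by
    rw [lt_top_iff_ne_top]
    intro h4
    exact h2 (LinearMap.range_eq_top.1 h4)
  obtain ⟨l, hl0, hl⟩ := Submodule.exists_le_ker_of_lt_top _ h3
  let φ : DD N := (l.restrictScalars ℤ).comp (TensorProduct.mk ℤ ℂ (AbN N) 1)
  have hφ : ∀ a, φ a = l (1 ⊗ₜ a) := fun a => rfl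
  refine ⟨φ, ?_, ?_⟩
  · intro h0
    apply hl0
    apply LinearMap.ext
    intro x
    rw [LinearMap.zero_apply]
    induction x using TensorProduct.induction_on with
    | zero => rw [map_zero]
    | add a b ha hb => rw [map_add, ha, hb, add_zero]
    | tmul c a =>
      have : c ⊗ₜ[ℤ] a = c • ((1 : ℂ) ⊗ₜ[ℤ] a) := by
        rw [TensorProduct.smul_tmul', smul_eq_mul, mul_one]
      rw [this, map_smul, ← hφ, h0, LinearMap.zero_apply, smul_zero]
  · intro a
    rw [hφ, hφ]
    have h4 : k (1 ⊗ₜ a) ∈ LinearMap.ker l := hl ⟨_, rfl⟩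
    rw [LinearMap.mem_ker, hkv, map_sub, map_smul, hg, LinearMap.baseChange_tmul,
      sub_eq_zero] at h4
    exact h4

/-- multiplication by `z` -/
noncomputable def mz (z : ℂ) : Module.End ℤ ℂ := (LinearMap.mulLeft ℤ z)

lemma aeval_mz (z : ℂ) (q : ℤ[X]) (y : ℂ) : (aeval (mz z) q) y = aeval z q * y := by
  induction q using Polynomial.induction_on' with
  | add p q hp hq => rw [map_add, LinearMap.add_apply, hp, hq, map_add, add_mul]
  | monomial n c =>
    rw [aeval_monomial, aeval_monomial, Module.End.mul_apply, Module.algebraMap_end_apply]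
    have h5 : (mz z ^ n) y = z ^ n * y := by
      induction n with
      | zero => simp
      | succ n ih =>
        rw [pow_succ', Module.End.mul_apply, ih]
        show z * (z ^ n * y) = _
        ring
    rw [h5]
    simp [mul_assoc]

lemma ann_of_ef {t : G} {z : ℂ} (h : EF N t z) :
    ∃ a : AbN N, ∀ p : ℤ[X], (aeval (act N t) p) a = 0 → aeval z p = 0 := by
  obtain ⟨φ, hφ0, hφ⟩ := h
  obtain ⟨a, ha⟩ : ∃ a, φ a ≠ 0 := by
    by_contra hcon
    push Not at hcon
    exact hφ0 (LinearMap.ext hcon)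
  refine ⟨a, fun p hp => ?_⟩
  have h3 := aeval_comm φ (g := act N t) (h := mz z) (fun m => hφ m) p a
  rw [hp, map_zero, aeval_mz] at h3
  rcases mul_eq_zero.1 h3.symm with h4 | h4
  · exact h4
  · exact absurd h4 ha

lemma integral_of_ef [Module.Finite ℤ (AbN N)] {t : G} {z : ℂ} (h : EF N t z) :
    IsIntegral ℤ z := by
  obtain ⟨a, ha⟩ := ann_of_ef N h
  exact integral_of_root _ a ha

/-- conjugates of eigenvalues are eigenvalues -/
lemma eig_conj [Module.Finite ℤ (AbN N)] {t : G} {z w : ℂ} (h : EF N t z)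
    (hw : aeval w (minpoly ℤ z) = 0) :
    Module.End.HasEigenvalue (LinearMap.baseChange ℂ (act N t) :
      Module.End ℂ (ℂ ⊗[ℤ] AbN N)) w := by
  obtain ⟨a, ha⟩ := ann_of_ef N h
  exact eig_of_root _ a ha hw

lemma ef_conj [Module.Finite ℤ (AbN N)] {t : G} {z w : ℂ} (h : EF N t z)
    (hw : aeval w (minpoly ℤ z) = 0) : EF N t w := ef_of_eig N (eig_conj N h hw)

lemma eig_of_ef [Module.Finite ℤ (AbN N)] {t : G} {z : ℂ} (h : EF N t z) :
    Module.End.HasEigenvalue (LinearMap.baseChange ℂ (act N t) :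
      Module.End ℂ (ℂ ⊗[ℤ] AbN N)) z := eig_conj N h (minpoly.aeval ℤ z)

lemma ef_ne_zero {t : G} {z : ℂ} (h : EF N t z) : z ≠ 0 := by
  rintro rfl
  obtain ⟨φ, hφ0, hφ⟩ := h
  apply hφ0
  apply LinearMap.ext
  intro a
  have h1 : a = act N t (act N t⁻¹ a) := by rw [← act_mul, mul_inv_cancel, act_one]
  rw [h1, hφ, zero_mul, LinearMap.zero_apply]

lemma ef_inv {t : G} {z : ℂ} (h : EF N t z) : EF N t⁻¹ z⁻¹ := by
  have hz := ef_ne_zero N h
  obtain ⟨φ, hφ0, hφ⟩ := h
  refine ⟨φ, hφ0, fun a => ?_⟩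
  have h1 : a = act N t (act N t⁻¹ a) := by rw [← act_mul, mul_inv_cancel, act_one]
  conv_rhs => rw [h1, hφ]
  field_simp

/-- conjugate elements have the same eigenvalues -/
lemma ef_cj {t : G} {z : ℂ} (g : G) (h : EF N (g * t * g⁻¹) z) : EF N t z := by
  obtain ⟨φ, hφ0, hφ⟩ := h
  refine ⟨op N g φ, ?_, fun a => ?_⟩
  · intro h0
    apply hφ0
    have : op N g⁻¹ (op N g φ) = φ := by rw [← op_mul, mul_inv_cancel, op_one]
    rw [← this, h0, map_zero]
  · rw [op_apply, op_apply, ← act_mul]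
    have e : g * t = g * t * g⁻¹ * g := by group
    rw [e, act_mul N (g * t * g⁻¹) g, hφ]

/-- weights -/
theorem weight [Module.Finite ℤ (AbN N)]
    (hN : ∀ s ∈ commutator G, ∀ t ∈ commutator G, s * t * s⁻¹ * t⁻¹ ∈ N)
    (c : commutator G) {z : ℂ} (h : EF N c z) :
    ∃ (χ : commutator G →* ℂˣ) (φ : DD N), φ ≠ 0 ∧
      (∀ (m : commutator G) (a : AbN N), φ (act N m a) = (χ m : ℂ) * φ a) ∧ (χ c : ℂ) = z := by
  have := finDD N
  obtain ⟨φ0, hφ0, hφz⟩ := h
  let W : Submodule ℂ (DD N) :=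
    { carrier := {ψ | op N c ψ = z • ψ}
      add_mem' := by
        intro a b ha hb
        show op N c (a + b) = z • (a + b)
        rw [map_add, show op N c a = _ from ha, show op N c b = _ from hb, smul_add]
      zero_mem' := by
        show op N c 0 = z • 0
        rw [map_zero, smul_zero]
      smul_mem' := by
        intro r a ha
        show op N c (r • a) = z • (r • a)
        rw [map_smul, show op N c a = _ from ha, smul_comm] }
  have hW : W ≠ ⊥ := by
    intro hbot
    have : φ0 ∈ W := by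
      show op N c φ0 = z • φ0
      apply LinearMap.ext
      intro a
      rw [op_apply, hφz]
      rfl
    rw [hbot, Submodule.mem_bot] at this
    exact hφ0 this
  obtain ⟨φ, hφW, hφ, hμ⟩ := common (fun m : commutator G => op N (m : G))
    (fun i j v => op_comm N hN i j v) W hW (by
      intro i v hv
      show op N c (op N i v) = z • op N i v
      rw [op_comm N hN, show op N c v = _ from hv, map_smul])
  choose μ hμ using hμ
  have hμ' : ∀ (m : commutator G) (a : AbN N), φ (act N m a) = μ m * φ a := by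
    intro m a
    have := LinearMap.congr_fun (hμ m) a
    exact this
  obtain ⟨a, ha⟩ : ∃ a, φ a ≠ 0 := by
    by_contra hcon
    push Not at hcon
    exact hφ (LinearMap.ext hcon)
  let χ0 : commutator G →* ℂ :=
    { toFun := μ
      map_one' := by
        have h1 := hμ' 1 a
        rw [Subgroup.coe_one, act_one] at h1
        exact (mul_eq_right₀ ha).1 h1.symm
      map_mul' := by
        intro m m'
        have h1 := hμ' (m * m') a
        rw [Subgroup.coe_mul, act_mul, hμ', hμ', ← mul_assoc] at h1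
        exact (mul_right_cancel₀ ha h1).symm }
  refine ⟨χ0.toHomUnits, φ, hφ, fun m a => hμ' m a, ?_⟩
  show μ c = z
  have h1 : op N c φ = z • φ := hφW
  have h2 := LinearMap.congr_fun h1 a
  have h3 : μ c * φ a = z * φ a := (hμ' c a).symm.trans h2
  exact mul_right_cancel₀ ha h3

end Pool.Agent.U161.AR
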